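import Pool.Agent.N111.GI.Maps
import Pool.Agent.N111.GG.Core
import Pool.Agent.W602.GT.MordDefs

/-!
The field of the functions which are algebraic over the values of all multi-valued maps to generic
complete intersections.
-/

set_option autoImplicit false
set_option linter.overlappingInstances false
set_option linter.unusedSectionVars false
set_option maxHeartbeats 1000000

open FF IntermediateField LinearAlgebra.Projectivization

namespace Pool.Agent.N111.GI

open Pool.Agent.TH466.QG Pool.Agent.N111.FT Pool.Agent.N111.GG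
open Pool.Agent.W602.GT (val coords IsForm VarPts PseudoMordellic RatPts)

section

variable (k K L : Type) [Field k] [Field K] [Algebra k K] [Field L] [Algebra K L] (r : ℕ)

/-- the functions which are algebraic over the values of all multi-valued maps to generic complete
intersections -/
noncomputable def rcore : IntermediateField K L :=
  (aclo K (⋃ C : RMap k K L r, C.values (AlgebraicClosure L))).comap
    (IsScalarTower.toAlgHom K L (AlgebraicClosure L))

variable {k K L r}

theorem mem_rcore {z : L} : z ∈ rcore k K L r ↔ algebraMap L (AlgebraicClosure L) z ∈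
    aclo K (⋃ C : RMap k K L r, C.values (AlgebraicClosure L)) := Iff.rfl

theorem rcore_closed {x : L} (h : IsAlgebraic (rcore k K L r) x) : x ∈ rcore k K L r := by
  rw [mem_rcore]
  apply aclo_closed
  let f : rcore k K L r →+* aclo K (⋃ C : RMap k K L r, C.values (AlgebraicClosure L)) :=
    { toFun := fun y => ⟨algebraMap L (AlgebraicClosure L) y, y.2⟩
      map_one' := Subtype.ext (map_one _)
      map_mul' := fun a b => Subtype.ext (map_mul _ _ _)
      map_zero' := Subtype.ext (map_zero _)
      map_add' := fun a b => Subtype.ext (map_add _ _ _) }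
  exact h.ringHom_of_comp_eq f (algebraMap L (AlgebraicClosure L)) f.injective rfl

/-- the values are algebraic over the core -/
theorem alg_rcore (C : RMap k K L r) (i j : Fin (C.X.n + 1)) (hj : C.x j ≠ 0) :
    IsAlgebraic (rcore k K L r) (C.x i / C.x j) := by
  classical
  set z' := C.x i / C.x j with hz'
  let Ω := AlgebraicClosure L
  have hint : IsIntegral L z' := Algebra.IsIntegral.isIntegral _
  set p := minpoly L z' with hp
  have hpm : (p.map (algebraMap L Ω)).Monic := (minpoly.monic hint).map _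
  have h1 : p.map (algebraMap L Ω) ∈
      Polynomial.lifts (algebraMap (aclo K (⋃ C : RMap k K L r, C.values Ω)) Ω) := by
    refine (IsAlgClosed.splits (p.map (algebraMap L Ω))).mem_lift_of_roots_mem_range hpm _ ?_
    intro a ha
    have h2 : a ∈ (minpoly L z').rootSet Ω := by
      rw [Polynomial.mem_rootSet]
      refine ⟨minpoly.ne_zero hint, ?_⟩
      have h3 := (Polynomial.mem_roots'.1 ha).2
      rw [Polynomial.IsRoot.def, Polynomial.eval_map] at h3
      rw [Polynomial.aeval_def]
      exact h3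
    rw [← Algebra.IsAlgebraic.range_eval_eq_rootSet_minpoly (F := L) (K := C.L') Ω z'] at h2
    obtain ⟨ψ, rfl⟩ := h2
    exact ⟨⟨ψ z', subset_aclo _ (Set.mem_iUnion.2 ⟨C, ψ, i, j, hj, rfl⟩)⟩, rfl⟩
  have h2 : p ∈ Polynomial.lifts (algebraMap (rcore k K L r) L) := by
    rw [Polynomial.lifts_iff_coeff_lifts] at h1 ⊢
    intro i
    obtain ⟨c, hc⟩ := h1 i
    rw [Polynomial.coeff_map] at hc
    refine ⟨⟨p.coeff i, ?_⟩, rfl⟩
    rw [mem_rcore]
    change algebraMap L Ω (p.coeff i) ∈ _
    rw [← hc]
    exact c.2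
  obtain ⟨q, hq⟩ := (Polynomial.mem_lifts _).1 h2
  refine ⟨q, ?_, ?_⟩
  · rintro rfl
    rw [Polynomial.map_zero] at hq
    exact minpoly.ne_zero hint hq.symm
  · have h3 : Polynomial.aeval z' (q.map (algebraMap (rcore k K L r) L)) = 0 := by
      rw [hq]
      exact minpoly.aeval L z'
    rwa [Polynomial.aeval_map_algebraMap] at h3

end

section descend

variable {k K L : Type} [Field k] [Field K] [CharZero K] [Algebra k K] [Field L] [Algebra K L]
  {r : ℕ}

/-- **The multi-valued maps descend** to the algebraically closed subfields over which the ratios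
of the coordinates are algebraic. -/
theorem RMap.descend (C : RMap k K L r) {L₀ : IntermediateField K L}
    (hcl : ∀ z : L, IsAlgebraic L₀ z → z ∈ L₀)
    (halg : ∀ i j, C.x j ≠ 0 → IsAlgebraic L₀ (C.x i / C.x j)) :
    ∃ C₀ : RMap k K L₀ r, ∀ (Ω : Type) [Field Ω] [Algebra L Ω], C.values Ω ⊆ C₀.values Ω := by
  classical
  have hL : CharZero L := charZero_of_injective_algebraMap (algebraMap K L).injective
  have hL₀ : CharZero L₀ := charZero_of_injective_algebraMap (algebraMap K L₀).injective
  obtain ⟨c0, hc0'⟩ := Function.ne_iff.1 C.pt.ne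
  have hc0 : C.x c0 ≠ 0 := hc0'
  let K₁ : IntermediateField L₀ C.L' := adjoin L₀ (Set.range fun i => C.x i / C.x c0)
  have hK₁ : FiniteDimensional L₀ K₁ := by
    refine IntermediateField.finiteDimensional_adjoin ?_
    rintro _ ⟨i, rfl⟩
    exact (halg i c0 hc0).isIntegral
  obtain ⟨θ, hθ⟩ := Field.exists_primitive_element L₀ K₁
  have hθi : IsIntegral L₀ θ := Algebra.IsIntegral.isIntegral θ
  have hθi' : IsIntegral L₀ (θ : C.L') := hθi.map K₁.val
  have hmin : minpoly L₀ (θ : C.L') = minpoly L₀ θ := by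
    have := minpoly.algHom_eq (A := L₀) K₁.val K₁.val.injective θ
    exact this
  have hlift := minpoly_lift (k := K) hcl hθi'
  have hdeg : Module.finrank L₀ K₁ ≤ r := by
    have h1 : Module.finrank L₀ K₁ = (minpoly L₀ θ).natDegree := by
      rw [← IntermediateField.adjoin.finrank hθi, hθ, IntermediateField.finrank_top']
    rw [h1, ← hmin, ← Polynomial.natDegree_map (algebraMap L₀ L), hlift]
    exact (minpoly.natDegree_le _).trans C.deg_le
  let x₀ : Fin (C.X.n + 1) → K₁ := fun i => ⟨C.x i / C.x c0, subset_adjoin _ _ ⟨i, rfl⟩⟩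
  have hx₀ : ∀ i, (x₀ i : C.L') = C.x i / C.x c0 := fun i => rfl
  have hst : IsScalarTower K K₁ C.L' := IsScalarTower.of_algebraMap_eq fun c => rfl
  have hev : ∀ (d : ℕ) (P : MvPolynomial (Fin (C.X.n + 1)) K), P.IsHomogeneous d →
      MvPolynomial.aeval C.x P = 0 → MvPolynomial.aeval x₀ P = 0 := by
    intro d P hP h
    apply (algebraMap K₁ C.L').injective
    rw [map_zero, ← MvPolynomial.aeval_algebraMap_apply]
    have h1 := aeval_div hP C.x (C.x c0)
    rw [h, mul_zero] at h1
    exact h1
  let C₀ : RMap k K L₀ r :=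
    { X := C.X
      bound := C.bound
      L' := K₁
      deg_le := hdeg
      x := x₀
      pt :=
        { ne := fun h => by
            have h1 := congrArg (fun z : K₁ => (z : C.L')) (congrFun h c0)
            change C.x c0 / C.x c0 = 0 at h1
            rw [div_self hc0] at h1
            exact one_ne_zero h1
          mem_V := fun f hf => by
            obtain ⟨d, hd⟩ := C.X.V_form f hf
            exact hev d _ (hd.map _) (C.pt.mem_V f hf)
          mem_F := fun a => hev _ _ (C.X.F_form a) (C.pt.mem_F a) } }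
  refine ⟨C₀, fun Ω _ _ => ?_⟩
  rintro z ⟨ψ, i, j, hj, rfl⟩
  refine ⟨(ψ.restrictScalars L₀).comp K₁.val, i, j, fun h => ?_, ?_⟩
  · have h1 : C.x j / C.x c0 = 0 := congrArg (fun z : K₁ => (z : C.L')) h
    exact hj ((div_eq_zero_iff.1 h1).resolve_right hc0)
  · have h1 : C.x i / C.x j = (C.x i / C.x c0) / (C.x j / C.x c0) := by field_simp
    rw [h1]
    rfl

theorem rcore_joint (z : rcore k K L r) :
    algebraMap (rcore k K L r) (AlgebraicClosure L) z ∈
      aclo K (⋃ C : RMap k K (rcore k K L r) r, C.values (AlgebraicClosure L)) := by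
  refine aclo_mono ?_ (mem_rcore.1 z.2)
  intro v hv
  obtain ⟨C, hC⟩ := Set.mem_iUnion.1 hv
  obtain ⟨C₀, h₀⟩ := C.descend (L₀ := rcore k K L r) (fun z hz => rcore_closed hz)
    (fun i j hj => alg_rcore C i j hj)
  exact Set.mem_iUnion.2 ⟨C₀, h₀ _ hC⟩

end descend

section main

variable {k K L : Type} [Field k] [Field K] [IsAlgClosed K] [CharZero K] [Algebra k K] [Field L]
  [Algebra K L] {r : ℕ}

/-- The variety with generic point `u` has, off a proper closed subset, only finitely many points over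
each field which is generated by a finite set over the algebraic closure of `k`. -/
def PseudoMordellicOver (k K : Type) {L : Type} [Field k] [Field K] [Algebra k K] [Field L]
    [Algebra K L] {M : ℕ} (u : Fin (M + 1) → L) : Prop :=
  ∃ R : MvPolynomial (Fin (M + 1)) K, IsForm R ∧ val u R ≠ 0 ∧ ∀ T : Finset K,
    {p : ℙ K (Fin (M + 1) → K) | ∃ x ∈ VarPts K u, MvPolynomial.eval x R ≠ 0 ∧
      (∀ i, x i ∈ adjoin (algebraicClosure k K) (T : Set K)) ∧
      ∃ hx : x ≠ 0, p = Projectivization.mk K x hx}.Finite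

theorem PseudoMordellicOver.pseudo {M : ℕ} {u : Fin (M + 1) → L}
    (h : PseudoMordellicOver k K u) : PseudoMordellic K u := by
  obtain ⟨R, hR, hRu, hT⟩ := h
  refine ⟨R, ∅, hR, hRu, fun T _ => (hT T).subset ?_⟩
  rintro p ⟨x, ⟨hx, hxR⟩, hxT, hx0, rfl⟩
  refine ⟨x, hx, ?_, fun i => ?_, hx0, rfl⟩
  · have h1 : MvPolynomial.aeval x R ≠ 0 := hxR
    rwa [MvPolynomial.aeval_eq_eval] at h1
  · have h1 : Subfield.closure (T : Set K) ≤
        (adjoin (algebraicClosure k K) (T : Set K)).toSubfield :=
      Subfield.closure_le.2 (IntermediateField.subset_adjoin _ _)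
    exact h1 (hxT i)

/-- **Pseudo-Mordellicity.** -/
theorem mordell_of (Ω : Type) [Field Ω] [Algebra K Ω] [Algebra L Ω] [IsScalarTower K L Ω] {M : ℕ}
    {u : Fin (M + 1) → L} (hu : u ≠ 0) (hgen : coords K u = ⊤)
    (hh : ∀ z : L, algebraMap L Ω z ∈ aclo K (⋃ C : RMap k K L r, C.values Ω)) :
    PseudoMordellicOver k K u := by
  obtain ⟨i₀, hi₀'⟩ := Function.ne_iff.1 hu
  have hi₀ : u i₀ ≠ 0 := hi₀'
  have hX : ∀ i, val u (MvPolynomial.X i : MvPolynomial (Fin (M + 1)) K) = u i := fun i =>
    MvPolynomial.aeval_X _ _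
  obtain ⟨R, ⟨d, hR⟩, hRu, hT⟩ := fin_fibres (k := k) (r := r) Ω hu hgen
    (q := M) (e := 1) (G := fun i => (MvPolynomial.X i : MvPolynomial (Fin (M + 1)) K))
    (fun i => MvPolynomial.isHomogeneous_X K i) (i₀ := i₀) (by rw [hX]; exact hi₀)
    (fun i => hh _)
  refine ⟨R * MvPolynomial.X i₀, ⟨d + 1, hR.mul (MvPolynomial.isHomogeneous_X K i₀)⟩, ?_,
    fun T => ?_⟩
  · change MvPolynomial.aeval u _ ≠ 0
    rw [map_mul]
    exact mul_ne_zero hRu (by rw [MvPolynomial.aeval_X]; exact hi₀)
  classical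
  refine ((hT T).image fun c => if hc : c ≠ 0 then Projectivization.mk K c hc else
    Projectivization.mk K (fun _ => 1) (fun h => one_ne_zero (congrFun h 0))).subset ?_
  rintro p ⟨x, hx, hxR, hxT, hx0, rfl⟩
  rw [map_mul, MvPolynomial.eval_X, mul_ne_zero_iff] at hxR
  refine ⟨fun i => x i / x i₀, ⟨x, hx, hxR.1, hxT, ?_, fun i => ?_⟩, ?_⟩
  · rw [MvPolynomial.eval_X]
    exact hxR.2
  · rw [MvPolynomial.eval_X, MvPolynomial.eval_X]
  · have hc : (fun i => x i / x i₀) ≠ 0 := by
      intro h
      have h1 := congrFun h i₀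
      change x i₀ / x i₀ = 0 at h1
      rw [div_self hxR.2] at h1
      exact one_ne_zero h1
    dsimp only
    rw [dif_pos hc, Projectivization.mk_eq_mk_iff']
    refine ⟨(x i₀)⁻¹, ?_⟩
    funext i
    rw [Pi.smul_apply, smul_eq_mul, div_eq_mul_inv, mul_comm]

/-- all functions are algebraic over the values of a generically finite multi-valued map -/
theorem joint_of (C : RMap k K L r) (halg : Algebra.IsAlgebraic (coords K C.x) C.L') (Ω : Type)
    [Field Ω] [Algebra K Ω] [Algebra L Ω] [IsScalarTower K L Ω] [IsAlgClosed Ω] (z : L) :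
    algebraMap L Ω z ∈ aclo K (⋃ C : RMap k K L r, C.values Ω) := by
  let ψ : C.L' →ₐ[L] Ω := IsAlgClosed.lift
  have h1 : algebraMap L C.L' z ∈ aclo K {z | ∃ i j, C.x j ≠ 0 ∧ z = C.x i / C.x j} :=
    mem_aclo.2 (halg.isAlgebraic _)
  have h2 := (map_mem_aclo_iff (ψ.restrictScalars K) _ _).2 h1
  have h3 : (ψ.restrictScalars K) (algebraMap L C.L' z) = algebraMap L Ω z := ψ.commutes z
  rw [h3] at h2
  refine aclo_mono ?_ h2
  rintro _ ⟨_, ⟨i, j, hj, rfl⟩, rfl⟩
  exact Set.mem_iUnion.2 ⟨C, ψ, i, j, hj, rfl⟩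

/-- **The base of the fibration is pseudo-Mordellic.** -/
theorem rcore_mordell {M : ℕ} {u : Fin (M + 1) → rcore k K L r} (hu : u ≠ 0)
    (hgen : coords K u = ⊤) : PseudoMordellicOver k K u :=
  mordell_of (AlgebraicClosure L) hu hgen rcore_joint

end main

end Pool.Agent.N111.GI
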