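import Mathlib

/-!
The elements of a finite extension which are determined by traces are algebraic over the field of
the ratios of the traces.
-/

set_option autoImplicit false
set_option linter.unusedSectionVars false

open IntermediateField Module

namespace Pool.Agent.N111.GI

section

variable {k L K : Type} [Field k] [Field L] [Field K] [Algebra k L] [Algebra L K]
  [FiniteDimensional L K] [Algebra.IsSeparable L K]

/-- nondegeneracy of the trace form -/
theorem eq_zero_of_trace {u h : K} (hu : adjoin L {u} = ⊤)
    (h0 : ∀ i < finrank L K, Algebra.trace L K (h * u ^ i) = 0) : h = 0 := by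
  have hint : IsIntegral L u := Algebra.IsIntegral.isIntegral u
  have hgen : Algebra.adjoin L {u} = ⊤ := by
    rw [← IntermediateField.adjoin_simple_toSubalgebra_of_isAlgebraic hint.isAlgebraic, hu,
      IntermediateField.top_toSubalgebra]
  have hdeg : (minpoly L u).natDegree = finrank L K := by
    rw [← IntermediateField.adjoin.finrank hint, hu, IntermediateField.finrank_top']
  have h1 : ∀ z : K, Algebra.trace L K (h * z) = 0 := by
    intro z
    have hz : z ∈ Algebra.adjoin L {u} := by
      rw [hgen]
      trivial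
    rw [Algebra.adjoin_singleton_eq_range_aeval] at hz
    obtain ⟨p, rfl⟩ := hz
    have h2 : Polynomial.aeval u (p %ₘ minpoly L u) = Polynomial.aeval u p :=
      Polynomial.aeval_modByMonic_eq_self_of_root (minpoly.aeval L u)
    change Algebra.trace L K (h * Polynomial.aeval u p) = 0
    rw [← h2, Polynomial.aeval_eq_sum_range, Finset.mul_sum, map_sum]
    refine Finset.sum_eq_zero fun i hi => ?_
    rw [mul_smul_comm, map_smul, h0 i, smul_zero]
    have h3 : (p %ₘ minpoly L u).natDegree < (minpoly L u).natDegree := by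
      apply Polynomial.natDegree_modByMonic_lt _ (minpoly.monic hint)
      intro h4
      have h5 := minpoly.natDegree_pos hint
      rw [h4, Polynomial.natDegree_one] at h5
      exact lt_irrefl _ h5
    have h4 := Finset.mem_range.1 hi
    omega
  by_contra hne
  have h2 := (traceForm_nondegenerate L K).1 h fun z => h1 z
  exact hne h2

/-- **Hankel determinants.** -/
theorem alg_of_trace {E : IntermediateField k L} {u h : K} (hu : adjoin L {u} = ⊤) (hh : h ≠ 0)
    {c : L} {a : ℕ} (ha : 2 * finrank L K ≤ a + 1)
    (hE : ∀ i ≤ a, ∃ e : E, Algebra.trace L K (h * u ^ i) = c * e) : IsAlgebraic E u := by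
  classical
  obtain ⟨n, hn⟩ : ∃ n, n = finrank L K := ⟨_, rfl⟩
  have hpos : 0 < n := by rw [hn]; exact finrank_pos
  have hint : IsIntegral L u := Algebra.IsIntegral.isIntegral u
  have hdeg : (minpoly L u).natDegree = n := by
    rw [hn, ← IntermediateField.adjoin.finrank hint, hu, IntermediateField.finrank_top']
  choose! e he using hE
  -- the matrix
  let H : Matrix (Fin n) (Fin n) E := Matrix.of fun i j => e (i + j)
  have hHe : ∀ i j : Fin n, Algebra.trace L K (h * u ^ ((i : ℕ) + j)) = c * H i j := by
    intro i j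
    refine he _ ?_
    have := i.2
    have := j.2
    omega
  have hinj : ∀ v : Fin n → L, (∀ i, ∑ j, ((H i j : L) * v j) = 0) → v = 0 := by
    intro v hv
    have h1 : ∑ j : Fin n, v j • u ^ (j : ℕ) = 0 := by
      have h2 : h * ∑ j : Fin n, v j • u ^ (j : ℕ) = 0 := by
        apply eq_zero_of_trace hu
        intro i hi
        rw [← hn] at hi
        rw [Finset.mul_sum, Finset.sum_mul, map_sum]
        have h3 : ∀ j : Fin n, Algebra.trace L K (h * (v j • u ^ (j : ℕ)) * u ^ i) =
            c * ((H ⟨i, hi⟩ j : L) * v j) := by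
          intro j
          have h4 : h * (v j • u ^ (j : ℕ)) * u ^ i = v j • (h * u ^ (i + (j : ℕ))) := by
            rw [pow_add, mul_smul_comm, smul_mul_assoc]
            ring_nf
          rw [h4, map_smul, hHe ⟨i, hi⟩ j, smul_eq_mul]
          ring
        rw [Finset.sum_congr rfl fun j _ => h3 j, ← Finset.mul_sum, hv, mul_zero]
      exact (mul_eq_zero.1 h2).resolve_left hh
    have h2 : (∑ j : Fin n, Polynomial.monomial (j : ℕ) (v j) : Polynomial L) = 0 := by
      by_contra h3
      have h4 : Polynomial.aeval u (∑ j : Fin n, Polynomial.monomial (j : ℕ) (v j)) = 0 := by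
        rw [map_sum]
        rw [← h1]
        refine Finset.sum_congr rfl fun j _ => ?_
        rw [Polynomial.aeval_monomial, Algebra.smul_def]
      have h5 := Polynomial.natDegree_le_natDegree (minpoly.degree_le_of_ne_zero L u h3 h4)
      have h6 : (∑ j : Fin n, Polynomial.monomial (j : ℕ) (v j) : Polynomial L).natDegree < n := by
        apply Nat.lt_of_le_of_lt (Polynomial.natDegree_sum_le_of_forall_le _ _ (n := n - 1) ?_)
        · omega
        · intro j _
          refine (Polynomial.natDegree_monomial_le _).trans ?_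
          have := j.2
          omega
      rw [hdeg] at h5
      omega
    funext j
    have h3 := congrArg (fun p => p.coeff (j : ℕ)) h2
    simp only [Polynomial.finsetSum_coeff, Polynomial.coeff_monomial, Polynomial.coeff_zero] at h3
    rw [Finset.sum_eq_single j] at h3
    · simpa using h3
    · intro i _ hij
      rw [if_neg]
      intro h4
      exact hij (Fin.ext h4)
    · intro h4
      exact absurd (Finset.mem_univ _) h4
  have hdet : H.det ≠ 0 := by
    intro h0
    obtain ⟨v, hv0, hv⟩ := Matrix.exists_mulVec_eq_zero_iff.2 h0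
    apply hv0
    have h1 := hinj (fun j => (v j : L)) (fun i => by
      have h2 := congrFun hv i
      rw [Matrix.mulVec, dotProduct] at h2
      have h3 := congrArg (fun z : E => (z : L)) h2
      simpa using h3)
    funext j
    exact Subtype.ext (congrFun h1 j)
  -- the coefficients of the minimal polynomial
  obtain ⟨b, hb⟩ : ∃ b : Fin n → E, ∀ i : Fin n, ∑ j, H i j * b j = e ((i : ℕ) + n) := by
    refine ⟨H⁻¹.mulVec fun i => e ((i : ℕ) + n), fun i => ?_⟩
    have h1 : H.mulVec (H⁻¹.mulVec fun i : Fin n => e ((i : ℕ) + n)) =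
        fun i : Fin n => e ((i : ℕ) + n) := by
      rw [Matrix.mulVec_mulVec, Matrix.mul_nonsing_inv _ (isUnit_iff_ne_zero.2 hdet),
        Matrix.one_mulVec]
    exact congrFun h1 i
  obtain ⟨q, hq⟩ : ∃ q : Polynomial E, q = Polynomial.X ^ n -
    ∑ j : Fin n, Polynomial.monomial (j : ℕ) (b j) := ⟨_, rfl⟩
  have hq0 : q ≠ 0 := by
    intro h0
    have h1 := congrArg (fun p => p.coeff n) h0
    rw [hq] at h1
    simp only [Polynomial.coeff_sub, Polynomial.coeff_X_pow, if_true, Polynomial.finsetSum_coeff,
      Polynomial.coeff_monomial, Polynomial.coeff_zero] at h1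
    rw [Finset.sum_eq_zero, sub_zero] at h1
    · exact one_ne_zero h1
    · intro j _
      rw [if_neg]
      have := j.2
      omega
  refine ⟨q, hq0, ?_⟩
  have haq : Polynomial.aeval u q = u ^ n - ∑ j : Fin n, (b j : L) • u ^ (j : ℕ) := by
    rw [hq, map_sub, map_pow, Polynomial.aeval_X, map_sum]
    congr 1
    refine Finset.sum_congr rfl fun j _ => ?_
    rw [Polynomial.aeval_monomial, Algebra.smul_def]
    rfl
  have h1 : h * Polynomial.aeval u q = 0 := by
    apply eq_zero_of_trace hu
    intro i hi
    rw [← hn] at hi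
    have h2 : h * Polynomial.aeval u q * u ^ i = h * u ^ (i + n) -
        ∑ j : Fin n, (b j : L) • (h * u ^ (i + (j : ℕ))) := by
      rw [haq, mul_sub, sub_mul, Finset.mul_sum, Finset.sum_mul]
      congr 1
      · rw [pow_add]
        ring
      · refine Finset.sum_congr rfl fun j _ => ?_
        rw [pow_add, mul_smul_comm, smul_mul_assoc]
        ring_nf
    rw [h2, map_sub, map_sum]
    have h3 : ∀ j : Fin n, Algebra.trace L K ((b j : L) • (h * u ^ (i + (j : ℕ)))) =
        c * ((H ⟨i, hi⟩ j * b j : E) : L) := by
      intro j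
      rw [map_smul, hHe ⟨i, hi⟩ j, smul_eq_mul]
      push_cast
      ring
    rw [Finset.sum_congr rfl fun j _ => h3 j, ← Finset.mul_sum, he (i + n) (by omega)]
    have h4 := congrArg (fun z : E => (z : L)) (hb ⟨i, hi⟩)
    simp only at h4
    rw [← h4]
    push_cast
    ring
  exact (mul_eq_zero.1 h1).resolve_left hh

end

section

variable {k L K : Type} [Field k] [Infinite k] [Field L] [Field K] [Algebra k L] [Algebra L K]
  [FiniteDimensional L K] [Algebra.IsSeparable L K] {N m : ℕ}

/-- the linear combinations of generators which do not generate the extension are exceptional -/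
theorem finite_bad {x : Fin N → K} (hgen : adjoin L (Set.range x) = ⊤) :
    {t : k | adjoin L {∑ j : Fin N, algebraMap L K (algebraMap k L (t ^ (j : ℕ))) * x j} ≠ ⊤}.Finite := by
  classical
  let Ω := AlgebraicClosure K
  let φ : K →ₐ[L] Ω := IsScalarTower.toAlgHom L K Ω
  have hfin : Finite (K →ₐ[L] Ω) := inferInstance
  let P : (K →ₐ[L] Ω) → Polynomial Ω := fun ψ =>
    ∑ j : Fin N, Polynomial.monomial (j : ℕ) (φ (x j) - ψ (x j))
  have hP : ∀ ψ, φ ≠ ψ → P ψ ≠ 0 := by
    intro ψ hψ h0
    apply hψ
    have h1 : ∀ j, φ (x j) = ψ (x j) := by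
      intro j
      have h2 := congrArg (fun p => p.coeff (j : ℕ)) h0
      simp only [P, Polynomial.finsetSum_coeff, Polynomial.coeff_monomial,
        Polynomial.coeff_zero] at h2
      rw [Finset.sum_eq_single j] at h2
      · simp only [if_true] at h2
        exact sub_eq_zero.1 h2
      · intro i _ hij
        rw [if_neg]
        intro h4
        exact hij (Fin.ext h4)
      · intro h4
        exact absurd (Finset.mem_univ _) h4
    have h2 : (⊤ : IntermediateField L K) ≤ (AlgHom.equalizer φ ψ : Subalgebra L K).toIntermediateField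
        (fun z hz => by
          have h3 : φ z = ψ z := hz
          change φ z⁻¹ = ψ z⁻¹
          rw [map_inv₀, map_inv₀, h3]) := by
      rw [← hgen, IntermediateField.adjoin_le_iff]
      rintro _ ⟨j, rfl⟩
      exact h1 j
    ext z
    exact h2 (show z ∈ (⊤ : IntermediateField L K) from trivial)
  have hroots : (⋃ ψ : {ψ : K →ₐ[L] Ω // φ ≠ ψ},
      {t : k | (P ψ.1).eval (algebraMap K Ω (algebraMap L K (algebraMap k L t))) = 0}).Finite := by
    refine Set.finite_iUnion fun ψ => ?_
    refine Set.Finite.of_finite_image (f := fun t : k =>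
      algebraMap K Ω (algebraMap L K (algebraMap k L t))) (((P ψ.1).rootSet_finite Ω).subset ?_) ?_
    · rintro _ ⟨t, ht, rfl⟩
      rw [Polynomial.mem_rootSet]
      exact ⟨hP _ ψ.2, by simpa using ht⟩
    · intro s _ t _ hst
      exact (algebraMap k L).injective ((algebraMap L K).injective
        ((algebraMap K Ω).injective hst))
  refine hroots.subset ?_
  intro t ht
  by_contra hcon
  apply ht
  rw [Field.primitive_element_iff_algHom_eq_of_eval L Ω
    (fun z => IsAlgClosed.splits _) _ φ]
  intro ψ hψ
  by_contra hne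
  apply hcon
  rw [Set.mem_iUnion]
  refine ⟨⟨ψ, hne⟩, ?_⟩
  change (P ψ).eval _ = 0
  simp only [P, Polynomial.eval_finsetSum, Polynomial.eval_monomial]
  have h1 : ∀ j : Fin N, (φ (x j) - ψ (x j)) *
      (algebraMap K Ω (algebraMap L K (algebraMap k L t))) ^ (j : ℕ) =
      φ (algebraMap L K (algebraMap k L (t ^ (j : ℕ))) * x j) -
        ψ (algebraMap L K (algebraMap k L (t ^ (j : ℕ))) * x j) := by
    intro j
    rw [map_mul, map_mul, AlgHom.commutes, AlgHom.commutes]
    have h2 : algebraMap K Ω (algebraMap L K (algebraMap k L t)) =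
      algebraMap L Ω (algebraMap k L t) := (IsScalarTower.algebraMap_apply L K Ω _).symm
    rw [h2, map_pow, map_pow]
    ring
  rw [Finset.sum_congr rfl fun j _ => h1 j, Finset.sum_sub_distrib, ← map_sum, ← map_sum, hψ,
    sub_self]

/-- the elements are algebraic over the field of the ratios of the traces -/
theorem coord_alg {E : IntermediateField k L} {x : Fin N → K} {j0 : Fin N} (hj0 : x j0 = 1)
    (hgen : adjoin L (Set.range x) = ⊤) {h : K} (hh : h ≠ 0) {c : L}
    (hm : 2 * finrank L K ≤ m + 1)
    (hE : ∀ f : Fin m → Fin N, ∃ e : E, Algebra.trace L K ((∏ k, x (f k)) * h) = c * e)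
    (j : Fin N) : IsAlgebraic E (x j) := by
  classical
  -- the space of the elements with traces in `c E`
  let S : Submodule E K := Submodule.span E (Set.range x)
  have h1S : (1 : K) ∈ S := by
    rw [← hj0]
    exact Submodule.subset_span ⟨j0, rfl⟩
  let W : Submodule E K :=
    { carrier := {z | ∃ e : E, Algebra.trace L K (h * z) = c * e}
      zero_mem' := ⟨0, by simp⟩
      add_mem' := by
        rintro a b ⟨e, he⟩ ⟨e', he'⟩
        refine ⟨e + e', ?_⟩
        rw [mul_add, map_add, he, he']
        push_cast
        ring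
      smul_mem' := by
        rintro r a ⟨e, he⟩
        refine ⟨r * e, ?_⟩
        have h1 : h * (r • a) = (r : L) • (h * a) := by
          rw [Algebra.smul_def, Algebra.smul_def]
          change h * (algebraMap L K (r : L) * a) = _
          ring
        rw [h1, map_smul, he, smul_eq_mul]
        push_cast
        ring }
  have hW : S ^ m ≤ W := by
    rw [Submodule.span_pow, Submodule.span_le]
    intro z hz
    rw [Set.mem_pow] at hz
    obtain ⟨g, rfl⟩ := hz
    choose f hf using fun i => (g i).2
    obtain ⟨e, he⟩ := hE f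
    refine ⟨e, ?_⟩
    rw [← he, List.prod_ofFn, mul_comm]
    congr 2
    exact Finset.prod_congr rfl fun i _ => (hf i).symm
  have hpow : ∀ u ∈ S, ∀ i ≤ m, u ^ i ∈ W := by
    intro u hu i hi
    apply hW
    have h1 : u ^ i * 1 ^ (m - i) ∈ S ^ i * S ^ (m - i) :=
      Submodule.mul_mem_mul (Submodule.pow_mem_pow S hu i) (Submodule.pow_mem_pow S h1S (m - i))
    rwa [one_pow, mul_one, ← pow_add, Nat.add_sub_cancel' hi] at h1
  have halg : ∀ t : k, adjoin L {∑ j : Fin N, algebraMap L K (algebraMap k L (t ^ (j : ℕ))) * x j} = ⊤ →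
      IsAlgebraic E (∑ j : Fin N, algebraMap L K (algebraMap k L (t ^ (j : ℕ))) * x j) := by
    intro t ht
    refine alg_of_trace ht hh (c := c) hm fun i hi => ?_
    refine hpow _ ?_ i hi
    refine Submodule.sum_mem _ fun j _ => ?_
    have h1 : algebraMap L K (algebraMap k L (t ^ (j : ℕ))) * x j =
        (algebraMap k E (t ^ (j : ℕ))) • x j := by
      rw [Algebra.smul_def]
      rfl
    rw [h1]
    exact Submodule.smul_mem _ _ (Submodule.subset_span ⟨j, rfl⟩)
  -- distinct values of the parameter
  have hbad := finite_bad (k := k) hgen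
  have hinf : ({t : k | adjoin L {∑ j : Fin N, algebraMap L K (algebraMap k L (t ^ (j : ℕ))) * x j} ≠
      ⊤}ᶜ : Set k).Infinite := hbad.infinite_compl
  let τ : ℕ ↪ _ := hinf.natEmbedding
  let t : Fin N → k := fun i => (τ i : k)
  have ht : Function.Injective t := by
    intro a b hab
    exact Fin.ext (τ.injective (Subtype.ext hab))
  have hgood : ∀ i, IsAlgebraic E
      (∑ j : Fin N, algebraMap L K (algebraMap k L (t i ^ (j : ℕ))) * x j) := by
    intro i
    apply halg
    exact not_not.1 (τ i).2
  -- the inverse of the Vandermonde matrix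
  obtain ⟨V, hV⟩ : ∃ V : Matrix (Fin N) (Fin N) k, V = Matrix.vandermonde t := ⟨_, rfl⟩
  have hdet : V.det ≠ 0 := by
    rw [hV]
    exact Matrix.det_vandermonde_ne_zero_iff.2 ht
  have hinv : V⁻¹ * V = 1 := Matrix.nonsing_inv_mul _ (isUnit_iff_ne_zero.2 hdet)
  have hx : x j = ∑ i, algebraMap L K (algebraMap k L (V⁻¹ j i)) *
      ∑ l : Fin N, algebraMap L K (algebraMap k L (t i ^ (l : ℕ))) * x l := by
    have h1 : ∀ l : Fin N, ∑ i, algebraMap L K (algebraMap k L (V⁻¹ j i)) *
        algebraMap L K (algebraMap k L (t i ^ (l : ℕ))) = if j = l then 1 else 0 := by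
      intro l
      have h2 := congrFun (congrFun hinv j) l
      rw [Matrix.mul_apply, Matrix.one_apply] at h2
      have h3 := congrArg (fun z => algebraMap L K (algebraMap k L z)) h2
      simp only [map_sum, map_mul, hV, Matrix.vandermonde_apply] at h3
      rw [hV]
      rw [h3]
      split_ifs <;> simp
    simp_rw [Finset.mul_sum]
    rw [Finset.sum_comm]
    have h2 : ∀ l : Fin N, ∑ i, algebraMap L K (algebraMap k L (V⁻¹ j i)) *
        (algebraMap L K (algebraMap k L (t i ^ (l : ℕ))) * x l) =
        (if j = l then 1 else 0) * x l := by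
      intro l
      rw [← h1 l, Finset.sum_mul]
      exact Finset.sum_congr rfl fun i _ => by ring
    rw [Finset.sum_congr rfl fun l _ => h2 l]
    simp
  rw [hx]
  rw [← mem_algebraicClosure_iff]
  refine sum_mem fun i _ => mul_mem ?_ (mem_algebraicClosure_iff.2 (hgood i))
  exact mem_algebraicClosure_iff.2
    (isAlgebraic_algebraMap (R := E) (A := K) (algebraMap k E (V⁻¹ j i)))

end

end Pool.Agent.N111.GI
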