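import Pool.Agent.N111.GI.Tr
import Pool.Agent.N111.GI.Han

/-!
Varieties which are dominated with small degree by varieties with twisted canonical forms are of
(logarithmic) general type.
-/

set_option autoImplicit false
set_option linter.unusedSectionVars false
set_option linter.overlappingInstances false

open FF Module Pool.Agent.W602.GT Pool.Agent.W603.LV Pool.Agent.W619.PQ Pool.Agent.Y172

namespace Pool.Agent.N111.GI

open IntermediateField.algebraAdjoinAdjoin in
/-- algebraically independent ratios -/
theorem exists_ratios {k L : Type} [Field k] [Field L] [Algebra k L] {n : ℕ}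
    (hL : Algebra.trdeg k L = n) {ι : Type} (T : ι → L) (f0 : ι)
    (h : Algebra.IsAlgebraic
      (IntermediateField.adjoin k (Set.range fun g => T g / T f0)) L) :
    ∃ s : Fin n → ι, AlgebraicIndependent k fun i => T (s i) / T f0 := by
  classical
  have h2 : Algebra.IsAlgebraic
      (Algebra.adjoin k (Set.range (fun g => T g / T f0))) L :=
    (IsFractionRing.comap_isAlgebraic_iff
      (A := Algebra.adjoin k (Set.range (fun g => T g / T f0)))
      (K := IntermediateField.adjoin k (Set.range (fun g => T g / T f0))) (C := L)).2 h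
  obtain ⟨B, hB, hb⟩ := exists_isTranscendenceBasis_subset (R := k)
    (Set.range (fun g => T g / T f0))
  have hBcard := hb.cardinalMk_eq_trdeg
  rw [hL] at hBcard
  have hBfin : B.Finite := by
    rw [← Set.finite_coe_iff, ← Cardinal.lt_aleph0_iff_finite, hBcard]
    exact Cardinal.natCast_lt_aleph0
  have hft : Fintype B := hBfin.fintype
  have hc : Fintype.card B = n := by
    rw [Cardinal.mk_fintype] at hBcard
    exact_mod_cast hBcard
  obtain ⟨e⟩ : Nonempty (Fin n ≃ B) := ⟨(Fintype.equivFinOfCardEq hc).symm⟩
  have h5 : ∀ i : Fin n, ∃ g, T g / T f0 = ((e i : B) : L) := fun i => hB (e i).2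
  choose s hs using h5
  refine ⟨s, ?_⟩
  have h6 : AlgebraicIndependent k (fun i : Fin n => ((e i : B) : L)) :=
    hb.1.comp (fun i : Fin n => e i) e.injective
  convert h6 using 1
  funext i
  exact hs i

section

variable {k K L : Type} [Field k] [CharZero k] [IsAlgClosed k] [Field K] [Field L] [Algebra k K] [Algebra k L]
  [Algebra K L] [IsScalarTower k K L] [FiniteDimensional K L] [Algebra.EssFiniteType k K]
  [Algebra.EssFiniteType k L] {n N m : ℕ}

/-- **Logarithmic general type of images**, if the points whose traces lie in a subfield are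
algebraic over it. -/
theorem gt_crit (hL : Algebra.trdeg k K = n) {BK : Place k K → Prop}
    {BL : Place k L → Prop}
    (hB : ∀ (P : Place k K) (Q : Place k L) (e : ℕ), Over Q P e → BL Q → BK P)
    {x : Fin N → L} {j0 : Fin N} (hj0 : x j0 = 1)
    (hgen : IntermediateField.adjoin K (Set.range x) = ⊤)
    {ω : (Fin n → Derivation k L L) → L} (hω : IsPluri 1 ω)
    (hreg : ∀ (f : Fin m → Fin N) (P : Place k L), Divisorial n P →
      SecAt BL P (fun D => (∏ j, x (f j)) * ω D))
    (halg : ∀ τ : L, IsAlgebraic (IntermediateField.adjoin k (Set.range x)) τ)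
    (hne : ∃ E, ω E ≠ 0) (hdeg : Module.finrank K L ≤ m + 1)
    (hcrit : ∀ (E : IntermediateField k K) (h : L) (c : K), h ≠ 0 → c ≠ 0 →
      (∀ f : Fin m → Fin N, ∃ e : E, Algebra.trace K L ((∏ k, x (f k)) * h) = c * e) →
      ∀ j, IsAlgebraic E (x j)) :
    LogGeneralType k K n BK := by
  classical
  have hcK : CharZero K := charZero_of_injective_algebraMap (algebraMap k K).injective
  obtain ⟨y, E, hy, hE⟩ := exists_crd hL
  choose E' hE' using fun i => exists_lift (L := L) hL (E i)
  have hyL : IsTranscendenceBasis k (fun j => algebraMap K L (y j)) := hy.algebraMap_comp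
  have hEL := lift_dual hE hE'
  have hωE : ω E' ≠ 0 := by
    obtain ⟨D, hD⟩ := hne
    intro h0
    apply hD
    rw [pluri_coord hyL hEL hω D, h0, mul_zero]
  obtain ⟨W, hWdef⟩ : ∃ W : (Fin m → Fin N) → (Fin n → Derivation k L L) → L,
    W = fun f D => (∏ j, x (f j)) * ω D := ⟨_, rfl⟩
  have hWp : ∀ f, IsPluri 1 (W f) := by
    intro f A D
    rw [hWdef]
    change (∏ j, x (f j)) * ω (fun i => ∑ j, A i j • D j) = _
    rw [hω A D]
    ring
  have hWr : ∀ f (P : Place k L), Divisorial n P → SecAt BL P (W f) := by
    intro f P hP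
    rw [hWdef]
    exact hreg f P hP
  obtain ⟨T, hTdef⟩ : ∃ T : (Fin m → Fin N) → K, ∀ f, T f = Algebra.trace K L (W f E') :=
    ⟨_, fun _ => rfl⟩
  have hT : ∀ f, T f = Algebra.trace K L ((∏ j, x (f j)) * ω E') := by
    intro f
    rw [hTdef, hWdef]
  have hθE : ∀ t, trForm y t E = t := by
    intro t
    have h1 : (Matrix.of fun i j => E i (y j) : Matrix (Fin n) (Fin n) K) = 1 := by
      ext i j
      rw [Matrix.of_apply, hE, Matrix.one_apply]
    rw [trForm, h1, Matrix.det_one, one_mul]
  have hθr : ∀ f (P : Place k K), Divisorial n P → SecAt BK P (trForm y (T f)) := by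
    intro f P hP
    rw [hTdef]
    exact trForm_sec hL hy hE hE' (W f) (hWp f) hB (hWr f) P hP
  have hpos : 0 < Module.finrank K L := Module.finrank_pos
  -- a nonzero trace
  obtain ⟨f0, hf0⟩ : ∃ f, T f ≠ 0 := by
    by_contra hcon
    push Not at hcon
    -- the nondegeneracy of the trace
    have hu := finite_bad (k := k) hgen
    obtain ⟨t, ht⟩ := hu.infinite_compl.nonempty
    have ht' : IntermediateField.adjoin K
      {∑ j : Fin N, algebraMap K L (algebraMap k K (t ^ (j : ℕ))) * x j} = ⊤ := not_not.1 ht
    apply hωE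
    refine eq_zero_of_trace ht' fun i hi => ?_
    let S : Submodule K L := Submodule.span K (Set.range x)
    have h1S : (1 : L) ∈ S := by
      rw [← hj0]
      exact Submodule.subset_span ⟨j0, rfl⟩
    let Z : Submodule K L := LinearMap.ker ((Algebra.trace K L).comp (LinearMap.mulLeft K (ω E')))
    have hZ : S ^ m ≤ Z := by
      rw [Submodule.span_pow, Submodule.span_le]
      intro z hz
      rw [Set.mem_pow] at hz
      obtain ⟨g, rfl⟩ := hz
      choose f hf using fun i => (g i).2
      change Algebra.trace K L (ω E' * _) = 0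
      rw [← hcon f, hT, List.prod_ofFn, mul_comm]
      congr 2
      exact Finset.prod_congr rfl fun i _ => (hf i).symm
    have hu' : (∑ j : Fin N, algebraMap K L (algebraMap k K (t ^ (j : ℕ))) * x j) ∈ S := by
      refine Submodule.sum_mem _ fun j _ => ?_
      rw [← Algebra.smul_def]
      exact Submodule.smul_mem _ _ (Submodule.subset_span ⟨j, rfl⟩)
    have hi' : i ≤ m := by omega
    have h2 := Submodule.mul_mem_mul (Submodule.pow_mem_pow S hu' i)
      (Submodule.pow_mem_pow S h1S (m - i))
    rw [one_pow, mul_one, ← pow_add, Nat.add_sub_cancel' hi'] at h2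
    exact hZ h2
  -- the field of the ratios
  have hcoord : ∀ j, IsAlgebraic
      (IntermediateField.adjoin k (Set.range fun g => T g / T f0)) (x j) := fun j =>
    hcrit (IntermediateField.adjoin k (Set.range fun g => T g / T f0)) (ω E') (T f0) hωE hf0
      (fun f => ⟨⟨T f / T f0, IntermediateField.subset_adjoin _ _ ⟨f, rfl⟩⟩, by
        rw [← hT]
        change T f = T f0 * (T f / T f0)
        field_simp⟩) j
  obtain ⟨F, hF⟩ : ∃ F, F = IntermediateField.adjoin k (Set.range fun g => T g / T f0) := ⟨_, rfl⟩
  rw [← hF] at hcoord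
  have hFL : ∀ τ : L, IsAlgebraic F τ := by
    intro τ
    have hle : IntermediateField.adjoin k (Set.range x) ≤
        (algebraicClosure F L).restrictScalars k := by
      rw [IntermediateField.adjoin_le_iff]
      rintro _ ⟨j, rfl⟩
      change x j ∈ algebraicClosure F L
      rw [mem_algebraicClosure_iff]
      exact hcoord j
    have h1 : IsAlgebraic (algebraicClosure F L) τ := by
      obtain ⟨q, hq, hqx⟩ := halg τ
      let φ : IntermediateField.adjoin k (Set.range x) →+* algebraicClosure F L :=
        (IntermediateField.inclusion hle).toRingHom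
      refine ⟨q.map φ, ?_, ?_⟩
      · rw [Ne, Polynomial.map_eq_zero]
        exact hq
      · rw [← hqx, Polynomial.aeval_def, Polynomial.eval₂_map, Polynomial.aeval_def]
        rfl
    exact h1.restrictScalars F
  have hFK : Algebra.IsAlgebraic F K := by
    constructor
    intro z
    exact (isAlgebraic_algebraMap_iff (algebraMap K L).injective).1 (hFL (algebraMap K L z))
  rw [hF] at hFK
  obtain ⟨s, hs⟩ := exists_ratios hL T f0 hFK
  refine ⟨hL, 1, one_pos, fun j => trForm y (T ((Fin.cons f0 s : Fin (n + 1) → _) j)),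
    fun j => trForm_pluri y _,
    fun P hP j => (hθr _ P hP).1, fun P hP hBP j => (hθr _ P hP).2 hBP, E, ?_, ?_⟩
  · change trForm y (T ((Fin.cons f0 s : Fin (n + 1) → _) 0)) E ≠ 0
    rw [hθE, Fin.cons_zero]
    exact hf0
  · simp only [hθE, Fin.cons_succ, Fin.cons_zero]
    exact hs

/-- **Logarithmic general type of images.** -/
theorem gt_of (hL : Algebra.trdeg k K = n) {BK : Place k K → Prop}
    {BL : Place k L → Prop}
    (hB : ∀ (P : Place k K) (Q : Place k L) (e : ℕ), Over Q P e → BL Q → BK P)
    {x : Fin N → L} {j0 : Fin N} (hj0 : x j0 = 1)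
    (hgen : IntermediateField.adjoin K (Set.range x) = ⊤)
    {ω : (Fin n → Derivation k L L) → L} (hω : IsPluri 1 ω)
    (hreg : ∀ (f : Fin m → Fin N) (P : Place k L), Divisorial n P →
      SecAt BL P (fun D => (∏ j, x (f j)) * ω D))
    (halg : ∀ τ : L, IsAlgebraic (IntermediateField.adjoin k (Set.range x)) τ)
    (hne : ∃ E, ω E ≠ 0) (hdeg : 2 * Module.finrank K L ≤ m + 1) :
    LogGeneralType k K n BK := by
  have hcK : CharZero K := charZero_of_injective_algebraMap (algebraMap k K).injective
  have hpos : 0 < Module.finrank K L := Module.finrank_pos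
  refine gt_crit hL hB hj0 hgen hω hreg halg hne (by omega) fun E h c hh _ hE j => ?_
  exact coord_alg hj0 hgen hh hdeg hE j

end

end Pool.Agent.N111.GI
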