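import Pool.Agent.N111.GI.Gt
import Pool.Agent.Y735.R2.Main2

/-!
Points whose traces lie in a subfield lie on lines over the algebraic closure of this subfield.
-/

set_option autoImplicit false
set_option linter.unusedSectionVars false
set_option linter.overlappingInstances false

open MvPolynomial
open Pool.Agent.TH145
open Pool.Agent.TH145.MG (DimLE)
open Pool.Agent.Y735.R2

namespace Pool.Agent.N111.GI

/-- There are no lines on the generic complete intersections (if the ratios of the coefficients are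
independent). -/
theorem noLine_ratio {k0 E : Type} [Field k0] [IsAlgClosed k0] [Field E] [Algebra k0 E]
    {n m : ℕ} {A : Type} [Fintype A] {dg : A → ℕ} (hd : 2 * m + 2 ≤ ∑ a, (dg a + 1))
    (V : Set (MvPolynomial (Fin (n + 1)) k0)) (hV : DimLE k0 V m)
    (F : A → MvPolynomial (Fin (n + 1)) E) (hF : ∀ a, (F a).IsHomogeneous (dg a))
    (I0 : A → Fin (n + 1) →₀ ℕ) (h0 : ∀ a, (F a).coeff (I0 a) ≠ 0)
    (hind : AlgebraicIndependent k0 fun p : GC.Rt dg I0 =>
      (F p.1).coeff p.2.1 / (F p.1).coeff (I0 p.1))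
    (l0 : Fin (n + 1)) : NoLine (algebraMap k0 E) V F l0 := by
  classical
  intro κ _ _ _ ρ u u' hu hu' H
  by_contra hne
  let _ : Algebra k0 κ := (ρ.comp (algebraMap k0 E)).toAlgebra
  let ρ' : E →ₐ[k0] κ := { ρ with commutes' := fun _ => rfl }
  have hind' : AlgebraicIndependent k0 fun p : GC.Rt dg I0 =>
      (map ρ (F p.1)).coeff p.2.1 / (map ρ (F p.1)).coeff (I0 p.1) := by
    have h1 := hind.map' (f := ρ') ρ'.toRingHom.injective
    have h2 : (fun p : GC.Rt dg I0 =>
        (map ρ (F p.1)).coeff p.2.1 / (map ρ (F p.1)).coeff (I0 p.1)) =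
        ρ' ∘ fun p : GC.Rt dg I0 => (F p.1).coeff p.2.1 / (F p.1).coeff (I0 p.1) := by
      funext p
      rw [coeff_map, coeff_map, ← map_div₀]
      rfl
    rw [h2]
    exact h1
  obtain ⟨T, hT⟩ : ∃ T : Finset κ, T = Finset.univ.image u ∪ Finset.univ.image u' := ⟨_, rfl⟩
  have hfin := Pool.Agent.Y735.R2.fin_points_alg' (k0 := k0) (K := κ) (r := 1) (by omega) V hV
    (fun a => map ρ (F a)) (fun a => (hF a).map ρ) I0 (fun a => by
      rw [coeff_map]
      exact (map_ne_zero ρ).2 (h0 a)) hind' T l0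
  have hinj : Function.Injective fun τ : ℕ => fun j => u j + (τ : κ) * u' j := by
    intro a b hab
    obtain ⟨j, hj⟩ := Function.ne_iff.1 hne
    have h1 := congrFun hab j
    have h2 : ((a : κ) - b) * u' j = 0 := by
      have h3 : u j + (a : κ) * u' j = u j + (b : κ) * u' j := h1
      linear_combination h3
    have h3 := (mul_eq_zero.1 h2).resolve_right hj
    exact_mod_cast sub_eq_zero.1 h3
  refine Set.infinite_of_injective_forall_mem hinj (fun τ => ?_) hfin
  refine ⟨?_, fun f hf => (H τ).1 f hf, fun a => ?_, ⊥, inferInstance, ?_, fun j => ?_⟩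
  · dsimp only
    rw [hu, hu', mul_zero, add_zero]
  · rw [eval_map]
    exact (H τ).2 a
  · exact (IntermediateField.finrank_bot).le
  · have hmem : ∀ z ∈ (T : Set κ), z ∈ (⊥ : IntermediateField
        (IntermediateField.adjoin k0 (T : Set κ)) κ) := fun z hz =>
      (⊥ : IntermediateField (IntermediateField.adjoin k0 (T : Set κ)) κ).algebraMap_mem
        ⟨z, IntermediateField.subset_adjoin _ _ hz⟩
    have h1 : u j ∈ (T : Set κ) := by
      rw [hT]
      simp
    have h2 : u' j ∈ (T : Set κ) := by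
      rw [hT]
      simp
    exact add_mem (hmem _ h1) (mul_mem (natCast_mem _ τ) (hmem _ h2))

/-- **Points whose traces lie in a subfield are algebraic over it**, if there are no lines. -/
theorem crit_line {k0 K L L' : Type} [Field k0] [Field K] [Field L] [Field L'] [Algebra k0 K]
    [Algebra K L] [Algebra K L'] [Algebra L L'] [IsScalarTower K L L'] [FiniteDimensional L L']
    [CharZero K] {n D : ℕ} {A : Type} (V : Set (MvPolynomial (Fin (n + 1)) k0))
    (F : A → MvPolynomial (Fin (n + 1)) K) {l0 : Fin (n + 1)}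
    (hNL : NoLine (algebraMap k0 K) V F l0) {x : Fin (n + 1) → L'} (hl : x l0 = 1)
    (hgen : IntermediateField.adjoin L (Set.range x) = ⊤)
    (hxV : ∀ f ∈ V, aeval x (map (algebraMap k0 K) f) = 0) (hxF : ∀ a, aeval x (F a) = 0)
    (hD : Module.finrank L L' ≤ D) {E : IntermediateField K L} {h : L'} (hh : h ≠ 0) {c : L}
    (hc : c ≠ 0)
    (hE : ∀ f : Fin D → Fin (n + 1), ∃ e : E, Algebra.trace L L' ((∏ i, x (f i)) * h) = c * e)
    (j : Fin (n + 1)) : IsAlgebraic E (x j) := by
  classical
  have hcL : CharZero L := charZero_of_injective_algebraMap (algebraMap K L).injective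
  have hcE : CharZero E := charZero_of_injective_algebraMap (algebraMap K E).injective
  let Ω := AlgebraicClosure L'
  have hsE : IsScalarTower E L L' := inferInstance
  let κ := algebraicClosure E Ω
  have hκ : IsAlgClosed κ := (algebraicClosure.isAlgClosure E Ω).isAlgClosed
  have hcκ : CharZero κ := charZero_of_injective_algebraMap (algebraMap E κ).injective
  let ρ : K →+* κ := (algebraMap E κ).comp (algebraMap K E)
  obtain ⟨s, hs⟩ : ∃ s, s = Module.finrank L L' := ⟨_, rfl⟩
  have hs0 : 0 < s := by rw [hs]; exact Module.finrank_pos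
  obtain ⟨ε, hεi, hεt, hε0⟩ := exists_enum (Ω := Ω) hs.symm x hgen ⟨0, hs0⟩
  have hcΩ : algebraMap L Ω c ≠ 0 := (map_ne_zero _).2 hc
  choose e he using hE
  have H : ∀ f : Fin D → Fin (n + 1), ∃ c' : κ,
      ∑ i, (ε i h / algebraMap L Ω c) * ∏ l, ε i (x (f l)) = algebraMap κ Ω c' := by
    intro f
    refine ⟨algebraMap E κ (e f), ?_⟩
    have h1 : ∑ i, (ε i h / algebraMap L Ω c) * ∏ l, ε i (x (f l)) =
        (algebraMap L Ω c)⁻¹ * ∑ i, ε i ((∏ l, x (f l)) * h) := by
      rw [Finset.mul_sum]
      refine Finset.sum_congr rfl fun i _ => ?_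
      rw [map_mul, map_prod]
      ring
    rw [h1, ← hεt, he, map_mul, ← mul_assoc, inv_mul_cancel₀ hcΩ, one_mul]
    rfl
  obtain ⟨u, u', t, hu, hu', hxu⟩ := dec (hs ▸ hD : s ≤ D) (fun i j => ε i (x j)) hεi (l0 := l0)
    (fun i => by rw [hl, map_one]) (fun i => ε i h / algebraMap L Ω c)
    (fun i => div_ne_zero ((map_ne_zero _).2 hh) hcΩ) H ⟨0, hs0⟩
  have hKΩ : (algebraMap κ Ω).comp ρ = (algebraMap L' Ω).comp (algebraMap K L') := by
    ext z
    change algebraMap L Ω (algebraMap K L z) = algebraMap L' Ω (algebraMap K L' z)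
    rw [IsScalarTower.algebraMap_apply L L' Ω, ← IsScalarTower.algebraMap_apply K L L']
  have h1 := const_pt (Ω := Ω) (x := fun j => algebraMap L' Ω (x j)) hNL ρ
    (fun f hf => by
      rw [← RingHom.comp_assoc, hKΩ, RingHom.comp_assoc]
      have h2 := hom_eval₂ f ((algebraMap K L').comp (algebraMap k0 K)) (algebraMap L' Ω) x
      have h3 : eval₂ (algebraMap K L') x (map (algebraMap k0 K) f) = 0 := hxV f hf
      rw [eval₂_map] at h3
      rw [h3, map_zero] at h2
      exact h2.symm)
    (fun a => by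
      rw [hKΩ]
      have h2 := hom_eval₂ (F a) (algebraMap K L') (algebraMap L' Ω) x
      have h3 : eval₂ (algebraMap K L') x (F a) = 0 := hxF a
      rw [h3, map_zero] at h2
      exact h2.symm)
    hu hu' (t := t) (fun j => by rw [← hxu j]; exact (hε0 (x j)).symm) j
  obtain ⟨b, hb⟩ := h1
  have h2 : IsAlgebraic E (algebraMap L' Ω (x j)) := by
    rw [← hb]
    exact mem_algebraicClosure_iff.1 b.2
  exact (isAlgebraic_algebraMap_iff (algebraMap L' Ω).injective).1 h2

end Pool.Agent.N111.GI
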