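import Pool.Agent.N111.GI.Cyc
import Pool.Agent.N111.GI.Lin
import Pool.Agent.TH145.GC.Scale
import Pool.Agent.N111.FT.Homs

/-!
Images of small degree of covers of the subvarieties of generic (log) complete intersections.
-/

set_option autoImplicit false
set_option linter.unusedSectionVars false
set_option linter.overlappingInstances false

open MvPolynomial FF Pool.Agent.W603.LV Pool.Agent.W603.PV Pool.Agent.TH145.GH
open Pool.Agent.W602.GT Pool.Agent.TH145.MG Pool.Agent.TH145.GC

namespace Pool.Agent.N111.GI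

section

variable {k0 K L : Type} [Field k0] [Field K] [Field L] [Algebra k0 K] [Algebra K L]
  [IsAlgClosed K] [CharZero K] {n m w ex : ℕ} {A : Type} [Fintype A] [DecidableEq A] {d : A → ℕ}

theorem form_sum {n d : ℕ} {F : MvPolynomial (Fin (n + 1)) K} (hF : F.IsHomogeneous d)
    [Fintype {I : Fin (n + 1) →₀ ℕ // I.degree = d}] :
    F = ∑ I : {I : Fin (n + 1) →₀ ℕ // I.degree = d},
      C (F.coeff I.1) * map (algebraMap k0 K) (monomial I.1 1) := by
  classical
  have h2 : ∀ I : {I : Fin (n + 1) →₀ ℕ // I.degree = d},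
      MvPolynomial.C (F.coeff I.1) * map (algebraMap k0 K) (monomial I.1 1) =
        monomial I.1 (F.coeff I.1) := by
    intro I
    rw [MvPolynomial.map_monomial, map_one, C_mul_monomial, mul_one]
  rw [Finset.sum_congr rfl fun I _ => h2 I]
  conv_lhs => rw [F.as_sum]
  rw [← Finset.sum_subtype_of_mem (p := fun I : Fin (n + 1) →₀ ℕ => I.degree = d)
    (fun I => monomial I (F.coeff I)) (fun I hI => deg_of_mem hF hI)]
  refine Finset.sum_subset (Finset.subset_univ _) fun I _ hI => ?_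
  rw [Finset.mem_subtype, notMem_support_iff] at hI
  rw [hI, monomial_zero]

/-- Twisted canonical forms, for generic forms. -/
theorem twisted (V : Set (MvPolynomial (Fin (n + 1)) k0)) (hVh : ∀ f ∈ V, ∃ e, f.IsHomogeneous e)
    (hV : DimLE k0 V m) (Cs : Finset A) (hw : 0 < w)
    (hd : 2 * m + 1 + ex ≤ ∑ a, d a + Cs.card + w)
    (F : A → MvPolynomial (Fin (n + 1)) K) (hF : ∀ a, (F a).IsHomogeneous (d a))
    (I0 : A → Fin (n + 1) →₀ ℕ) (h0 : ∀ a, (F a).coeff (I0 a) ≠ 0)
    (hind : AlgebraicIndependent k0 fun p : Rt d I0 =>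
      (F p.1).coeff p.2.1 / (F p.1).coeff (I0 p.1)) (htr : Algebra.trdeg K L = w)
    {x : Fin (n + 1) → L} {c0 : Fin (n + 1)} (hc0 : x c0 ≠ 0)
    (halg : Algebra.IsAlgebraic (coords K x) L)
    (hxV : ∀ f ∈ V, aeval x (map (algebraMap k0 K) f) = 0)
    (hxC : ∀ c ∈ Cs, aeval x (F c) = 0) (hxb : ∀ b, b ∉ Cs → aeval x (F b) ≠ 0) :
    ∃ ω : (Fin w → Derivation K L L) → L, IsPluri 1 ω ∧ (∃ E, ω E ≠ 0) ∧
      ∀ (f : Fin ex → Fin (n + 1)) (Q : Place K L), Divisorial w Q →
        SecAt (fun Q : Place K L => ∃ b, b ∉ Cs ∧ d b * pord Q x < Q.ord (aeval x (F b))) Q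
          (fun D => (∏ j, x (f j) / x c0) * ω D) := by
  classical
  have hfd : ∀ a, Finite {I : Fin (n + 1) →₀ ℕ // I.degree = d a} := fun a => finite_deg n (d a)
  have hft : ∀ a, Fintype {I : Fin (n + 1) →₀ ℕ // I.degree = d a} := fun a => Fintype.ofFinite _
  have hI0 : ∀ a, (I0 a).degree = d a := fun a => deg_of_mem (hF a) (mem_support_iff.2 (h0 a))
  have h1 := exists_twisted (k0 := k0) (K := K) (L := L) (n := n) (m := m) (w := w) (ex := ex)
    (A := A) (dg := d) V hVh hV
    (J := fun a => {I : Fin (n + 1) →₀ ℕ // I.degree = d a})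
    (fun _ I => monomial I.1 1) (fun _ I => isHomogeneous_monomial _ I.2)
    (fun a I => (F a).coeff I.1) (fun a => ⟨I0 a, hI0 a⟩) h0 (by
      have h2 := hind.comp (fun p : (Σ a : A, {j : {I : Fin (n + 1) →₀ ℕ // I.degree = d a} //
        j ≠ ⟨I0 a, hI0 a⟩}) => (⟨p.1, p.2.1.1, p.2.1.2, fun h => p.2.2 (Subtype.ext h)⟩ :
          Rt d I0)) (by
          rintro ⟨a, ⟨⟨I, hI⟩, hI2⟩⟩ ⟨a', ⟨⟨I', hI'⟩, hI2'⟩⟩ h
          have e1 : a = a' := congrArg Sigma.fst h
          subst e1
          have e2 := eq_of_heq (Sigma.mk.inj_iff.1 h).2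
          have e3 : I = I' := congrArg Subtype.val e2
          subst e3
          rfl)
      exact h2) c0 (fun _ I hI => ⟨⟨I, Pool.Agent.TH145.GD.deg_St hI⟩, rfl⟩)
    (F := F) (fun a => form_sum (hF a)) Cs (fun _ => 0) (fun a ha => Or.inr rfl) hw (by
      simp only [Nat.div_zero, Finset.sum_const_zero, add_zero]
      exact hd) htr x hc0 halg hxV hxC hxb (fun _ => 0) (fun a ha h => absurd rfl h)
  have h2 : (fun Q : Place K L => ∃ a, a ∉ Cs ∧ (0 : ℕ) = 0 ∧
      d a * pord Q x < Q.ord (aeval x (F a))) = fun Q : Place K L => ∃ b, b ∉ Cs ∧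
      d b * pord Q x < Q.ord (aeval x (F b)) := by
    funext Q
    refine propext ⟨?_, ?_⟩
    · rintro ⟨a, ha, -, h⟩
      exact ⟨a, ha, h⟩
    · rintro ⟨a, ha, h⟩
      exact ⟨a, ha, rfl, h⟩
  rwa [h2] at h1

end

section

variable {k0 K L L' : Type} [Field k0] [Field K] [Field L] [Field L'] [Algebra k0 K] [Algebra K L]
  [Algebra K L'] [Algebra L L'] [IsScalarTower K L L'] [FiniteDimensional L L']
  [Algebra.EssFiniteType K L]
  [IsAlgClosed K] [CharZero K] {n m w r : ℕ} {A : Type} [Fintype A] [DecidableEq A] {d : A → ℕ}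

/-- Images of small degree are of log general type. -/
theorem img_log (V : Set (MvPolynomial (Fin (n + 1)) k0)) (hVh : ∀ f ∈ V, ∃ e, f.IsHomogeneous e)
    (hV : DimLE k0 V m) (Cs : Finset A) (hw : 0 < w)
    (hr : Module.finrank L L' ≤ r) (hd : 2 * m + 2 * r ≤ ∑ a, d a + Cs.card + w)
    (F : A → MvPolynomial (Fin (n + 1)) K) (hF : ∀ a, (F a).IsHomogeneous (d a))
    (I0 : A → Fin (n + 1) →₀ ℕ) (h0 : ∀ a, (F a).coeff (I0 a) ≠ 0)
    (hind : AlgebraicIndependent k0 fun p : Rt d I0 =>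
      (F p.1).coeff p.2.1 / (F p.1).coeff (I0 p.1)) (htr : Algebra.trdeg K L = w)
    {x : Fin (n + 1) → L'} {c0 : Fin (n + 1)} (hc0 : x c0 ≠ 0)
    (halg : Algebra.IsAlgebraic (coords K x) L')
    (hgen : IntermediateField.adjoin L (Set.range fun j => x j / x c0) = ⊤)
    (hxV : ∀ f ∈ V, aeval x (map (algebraMap k0 K) f) = 0)
    (hxC : ∀ c ∈ Cs, aeval x (F c) = 0) (hxb : ∀ b, b ∉ Cs → aeval x (F b) ≠ 0)
    {BL : Place K L → Prop} (hB : ∀ (P : Place K L) (Q : Place K L') (e : ℕ), Over Q P e →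
      (∃ b, b ∉ Cs ∧ d b * pord Q x < Q.ord (aeval x (F b))) → BL P) :
    LogGeneralType K L w BL := by
  have hess : Algebra.EssFiniteType K L' := Algebra.EssFiniteType.comp K L L'
  have hpos : 0 < Module.finrank L L' := Module.finrank_pos
  have htr' : Algebra.trdeg K L' = w := Pool.Agent.Y172.trdeg_up (K := L) htr
  obtain ⟨ω, hω, hne, hreg⟩ := twisted (ex := 2 * r - 1) V hVh hV Cs hw (by omega) F hF I0 h0 hind
    htr' hc0 halg hxV hxC hxb
  have hco : coords K x ≤ IntermediateField.adjoin K (Set.range fun j => x j / x c0) := by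
    unfold coords
    rw [IntermediateField.adjoin_le_iff]
    rintro z ⟨i, j, hj, rfl⟩
    have h2 : x i / x j = (x i / x c0) / (x j / x c0) := by field_simp
    rw [h2]
    exact div_mem (IntermediateField.subset_adjoin _ _ ⟨i, rfl⟩)
      (IntermediateField.subset_adjoin _ _ ⟨j, rfl⟩)
  refine gt_of (x := fun j => x j / x c0) (j0 := c0) htr hB (div_self hc0) hgen hω hreg
    (fun τ => ?_) hne (m := 2 * r - 1) (by omega)
  have h1 := Pool.Agent.W602.GT.alg_mono hco halg
  exact h1.isAlgebraic τ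

/-- values of forms at proportional points -/
theorem aeval_div {E F : Type} [Field E] [Field F] [Algebra E F] {n e : ℕ}
    {G : MvPolynomial (Fin (n + 1)) E} (hG : G.IsHomogeneous e) (x : Fin (n + 1) → F) (c : F) :
    aeval (fun j => x j / c) G = (c⁻¹) ^ e * aeval x G := by
  have h1 := Pool.Agent.TH145.MG.aeval_smul hG (a := c⁻¹) (x := x)
  have h2 : (fun j => x j / c) = c⁻¹ • x := by
    funext j
    rw [Pi.smul_apply, smul_eq_mul, div_eq_mul_inv, mul_comm]
  rw [h2, h1]

open Pool.Agent.N111.FT in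
/-- Normalization of the coordinates of the point. -/
theorem img_norm {P : Prop} (V : Set (MvPolynomial (Fin (n + 1)) k0))
    (hVh : ∀ f ∈ V, ∃ e, f.IsHomogeneous e) (hr : Module.finrank L L' ≤ r)
    (F : A → MvPolynomial (Fin (n + 1)) K) (hF : ∀ a, (F a).IsHomogeneous (d a))
    {x : Fin (n + 1) → L'} (hx0 : x ≠ 0) (halg : Algebra.IsAlgebraic (coords K x) L')
    (hxV : ∀ f ∈ V, aeval x (map (algebraMap k0 K) f) = 0)
    (hxF : ∀ a, aeval x (F a) = 0)
    (hP : ∀ (L1 : IntermediateField L L') (_ : IsScalarTower K L1 L') (x1 : Fin (n + 1) → L1)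
      (c0 : Fin (n + 1)), x1 c0 = 1 → IntermediateField.adjoin L (Set.range x1) = ⊤ →
      Algebra.IsAlgebraic (coords K x1) L1 → Module.finrank L L1 ≤ r →
      (∀ f ∈ V, aeval x1 (map (algebraMap k0 K) f) = 0) → (∀ a, aeval x1 (F a) = 0) → P) : P := by
  classical
  obtain ⟨c0, hc0'⟩ := Function.ne_iff.1 hx0
  have hc0 : x c0 ≠ 0 := hc0'
  let L1 := IntermediateField.adjoin L (Set.range fun j => x j / x c0)
  let x1 : Fin (n + 1) → L1 := fun j =>
    ⟨x j / x c0, IntermediateField.subset_adjoin _ _ ⟨j, rfl⟩⟩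
  have hst : IsScalarTower K L1 L' := IsScalarTower.of_algebraMap_eq fun _ => rfl
  have hx1v : ∀ j, algebraMap L1 L' (x1 j) = x j / x c0 := fun j => rfl
  have hx1 : x1 c0 = 1 := Subtype.ext (div_self hc0)
  have hev : ∀ (e : ℕ) (G : MvPolynomial (Fin (n + 1)) K), G.IsHomogeneous e →
      aeval x G = 0 → aeval x1 G = 0 := by
    intro e G hG h
    apply (algebraMap L1 L').injective
    rw [map_zero]
    have h1 : algebraMap L1 L' (aeval x1 G) = aeval (fun j => x j / x c0) G := by
      rw [← aeval_algebraMap_apply]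
      rfl
    rw [h1, aeval_div hG, h, mul_zero]
  have halg1 : Algebra.IsAlgebraic (coords K x1) L1 := by
    constructor
    intro z
    have h1 : (IsScalarTower.toAlgHom K L1 L') z ∈ aclo K
        ((IsScalarTower.toAlgHom K L1 L') '' {z : L1 | ∃ i j, x1 j ≠ 0 ∧ z = x1 i / x1 j}) := by
      have h2 : ((IsScalarTower.toAlgHom K L1 L') ''
          {z : L1 | ∃ i j, x1 j ≠ 0 ∧ z = x1 i / x1 j}) =
          {z : L' | ∃ i j, x j ≠ 0 ∧ z = x i / x j} := by
        ext t
        constructor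
        · rintro ⟨_, ⟨i, j, hj, rfl⟩, rfl⟩
          have hj' : x j ≠ 0 := by
            intro h
            apply hj
            apply Subtype.ext
            change x j / x c0 = 0
            rw [h, zero_div]
          refine ⟨i, j, hj', ?_⟩
          change (x i / x c0) / (x j / x c0) = _
          field_simp
        · rintro ⟨i, j, hj, rfl⟩
          refine ⟨x1 i / x1 j, ⟨i, j, ?_, rfl⟩, ?_⟩
          · intro h
            have h3 : x j / x c0 = 0 := congrArg Subtype.val h
            exact (div_ne_zero hj hc0) h3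
          · change (x i / x c0) / (x j / x c0) = _
            field_simp
      rw [h2, mem_aclo]
      exact halg.isAlgebraic _
    rw [map_mem_aclo_iff, mem_aclo] at h1
    exact h1
  refine hP L1 hst x1 c0 hx1 ?_ halg1 ?_ ?_ ?_
  · apply IntermediateField.map_injective L1.val
    rw [← AlgHom.fieldRange_eq_map, IntermediateField.fieldRange_val,
      IntermediateField.adjoin_map]
    congr 1
    rw [← Set.range_comp]
    rfl
  · refine le_trans ?_ hr
    exact LinearMap.finrank_le_finrank_of_injective (f := L1.val.toLinearMap)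
      (fun a b h => Subtype.ext h)
  · intro f hf
    obtain ⟨e, he⟩ := hVh f hf
    exact hev e _ (he.map _) (hxV f hf)
  · exact fun a => hev _ _ (hF a) (hxF a)

/-- **Images of small degree are of general type.** -/
theorem img_general (V : Set (MvPolynomial (Fin (n + 1)) k0))
    (hVh : ∀ f ∈ V, ∃ e, f.IsHomogeneous e) (hV : DimLE k0 V m) (hw : 0 < w)
    (hr : Module.finrank L L' ≤ r) (hd : 2 * m + 2 * r ≤ ∑ a, (d a + 1) + w)
    (F : A → MvPolynomial (Fin (n + 1)) K) (hF : ∀ a, (F a).IsHomogeneous (d a))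
    (I0 : A → Fin (n + 1) →₀ ℕ) (h0 : ∀ a, (F a).coeff (I0 a) ≠ 0)
    (hind : AlgebraicIndependent k0 fun p : Rt d I0 =>
      (F p.1).coeff p.2.1 / (F p.1).coeff (I0 p.1)) (htr : Algebra.trdeg K L = w)
    {x : Fin (n + 1) → L'} (hx0 : x ≠ 0) (halg : Algebra.IsAlgebraic (coords K x) L')
    (hxV : ∀ f ∈ V, aeval x (map (algebraMap k0 K) f) = 0)
    (hxF : ∀ a, aeval x (F a) = 0) : GeneralType K L w := by
  refine img_norm V hVh hr F hF hx0 halg hxV hxF
    fun L1 _ x1 c0 hx1 hgen1 halg1 hr1 hV1 hF1 => ?_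
  refine general_of_log ?_
  refine img_log (L' := L1) (c0 := c0) V hVh hV Finset.univ hw (r := r) hr1 ?_ F hF I0 h0 hind htr
    (x := x1) (by rw [hx1]; exact one_ne_zero) halg1 ?_ hV1 (fun a _ => hF1 a) ?_ ?_
  · rw [Finset.card_univ]
    have h1 : ∑ a, (d a + 1) = ∑ a, d a + Fintype.card A := by
      rw [Finset.sum_add_distrib, Finset.sum_const, smul_eq_mul, mul_one, Finset.card_univ]
    omega
  · have h1 : (fun j => x1 j / x1 c0) = x1 := by
      funext j
      rw [hx1, div_one]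
    rw [h1]
    exact hgen1
  · exact fun b hb => absurd (Finset.mem_univ b) hb
  · rintro P Q e - ⟨b, hb, -⟩
    exact hb (Finset.mem_univ b)

/-- **Images of small degree are of general type**, if there are no lines. -/
theorem img_line [IsAlgClosed k0] (V : Set (MvPolynomial (Fin (n + 1)) k0))
    (hVh : ∀ f ∈ V, ∃ e, f.IsHomogeneous e) (hV : DimLE k0 V m) (hw : 0 < w)
    (hr : Module.finrank L L' ≤ r) (hd : 2 * m + 1 + r ≤ ∑ a, (d a + 1) + w)
    (hd2 : 2 * m + 2 ≤ ∑ a, (d a + 1))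
    (F : A → MvPolynomial (Fin (n + 1)) K) (hF : ∀ a, (F a).IsHomogeneous (d a))
    (I0 : A → Fin (n + 1) →₀ ℕ) (h0 : ∀ a, (F a).coeff (I0 a) ≠ 0)
    (hind : AlgebraicIndependent k0 fun p : Rt d I0 =>
      (F p.1).coeff p.2.1 / (F p.1).coeff (I0 p.1)) (htr : Algebra.trdeg K L = w)
    {x : Fin (n + 1) → L'} (hx0 : x ≠ 0) (halg : Algebra.IsAlgebraic (coords K x) L')
    (hxV : ∀ f ∈ V, aeval x (map (algebraMap k0 K) f) = 0)
    (hxF : ∀ a, aeval x (F a) = 0) : GeneralType K L w := by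
  classical
  refine img_norm V hVh hr F hF hx0 halg hxV hxF
    fun L1 _ x1 c0 hx1 hgen1 halg1 hr1 hV1 hF1 => ?_
  refine general_of_log ?_
  have hess : Algebra.EssFiniteType K L1 := Algebra.EssFiniteType.comp K L L1
  have htr' : Algebra.trdeg K L1 = w := Pool.Agent.Y172.trdeg_up (K := L) htr
  have hx1d : (fun j => x1 j / x1 c0) = x1 := by
    funext j
    rw [hx1, div_one]
  obtain ⟨ω, hω, hne, hreg⟩ := twisted (ex := r) V hVh hV Finset.univ hw (by
    rw [Finset.card_univ]
    have h1 : ∑ a, (d a + 1) = ∑ a, d a + Fintype.card A := by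
      rw [Finset.sum_add_distrib, Finset.sum_const, smul_eq_mul, mul_one, Finset.card_univ]
    omega) F hF I0 h0 hind htr' (x := x1) (c0 := c0) (by rw [hx1]; exact one_ne_zero) halg1 hV1
    (fun a _ => hF1 a) (fun b hb => absurd (Finset.mem_univ b) hb)
  have hco : coords K x1 ≤ IntermediateField.adjoin K (Set.range x1) := by
    unfold coords
    rw [IntermediateField.adjoin_le_iff]
    rintro z ⟨i, j, hj, rfl⟩
    exact div_mem (IntermediateField.subset_adjoin _ _ ⟨i, rfl⟩)
      (IntermediateField.subset_adjoin _ _ ⟨j, rfl⟩)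
  have hNL := noLine_ratio (k0 := k0) (E := K) hd2 V hV F hF I0 h0 hind c0
  refine gt_crit (x := x1) (j0 := c0) htr
    (BL := fun Q : Place K L1 => ∃ b, b ∉ (Finset.univ : Finset A) ∧
      d b * pord Q x1 < Q.ord (aeval x1 (F b))) ?_ hx1 hgen1 hω (m := r) ?_
    (fun τ => (Pool.Agent.W602.GT.alg_mono hco halg1).isAlgebraic τ) hne (by omega)
    fun E h c hh hc hE j => crit_line V F hNL hx1 hgen1 hV1 hF1 hr1 hh hc hE j
  · rintro P Q e - ⟨b, hb, -⟩
    exact absurd (Finset.mem_univ b) hb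
  · intro f Q hQ
    have h1 := hreg f Q hQ
    simp only [hx1, div_one] at h1
    exact h1

end

end Pool.Agent.N111.GI
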