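import Pool.Agent.N111.GI.Img
import Pool.Agent.N111.GG.Lang

/-!
The subvarieties of the images of small degree of covers of generic complete intersections.
-/

set_option autoImplicit false
set_option linter.unusedSectionVars false
set_option linter.overlappingInstances false

open FF

namespace Pool.Agent.N111.GI

open Pool.Agent.TH466.QG Pool.Agent.N111.FT Pool.Agent.N111.GG
open Pool.Agent.W602.GT (val coords GeneralType IsForm)
open Pool.Agent.TH145.MG (DimLE)
open Pool.Agent.TH145.GC (Rt)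

/-- the values of polynomials -/
theorem sp_val {k K' K'' : Type} [Field k] [Field K'] [Field K''] [Algebra k K'] [Algebra k K'']
    (S : Sp k K' K'') {τ : Type} {v : τ → K'} {v' : τ → K''} (h : ∀ i, S.T (v i) (v' i))
    (G : MvPolynomial τ k) : S.T (MvPolynomial.aeval v G) (MvPolynomial.aeval v' G) := by
  induction G using MvPolynomial.induction_on with
  | C c =>
    rw [MvPolynomial.aeval_C, MvPolynomial.aeval_C]
    exact S.const c
  | add p q hp hq =>
    rw [map_add, map_add]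
    exact S.add hp hq
  | mul_X p i hp =>
    rw [map_mul, map_mul, MvPolynomial.aeval_X, MvPolynomial.aeval_X]
    exact S.mul hp (h i)

theorem ess_of_gen {k K : Type} [Field k] [Field K] [Algebra k K] {n : ℕ} {y : Fin (n + 1) → K}
    (hgen : coords k y = ⊤) : Algebra.EssFiniteType k K := Pool.Agent.W602.GT.essFinite hgen

/-- **Subvarieties of images**, if the images of small degree are of general type. -/
theorem img_strong_of {k0 K L L' : Type} [Field k0] [Field K] [Field L] [Field L'] [Algebra k0 K]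
    [Algebra K L] [Algebra K L'] [Algebra L L'] [IsScalarTower K L L'] [FiniteDimensional L L']
    [IsAlgClosed K] [CharZero K] {n r : ℕ} {A : Type} {d : A → ℕ}
    (V : Set (MvPolynomial (Fin (n + 1)) k0))
    (hVh : ∀ f ∈ V, ∃ e, f.IsHomogeneous e)
    (hr : Module.finrank L L' ≤ r)
    (F : A → MvPolynomial (Fin (n + 1)) K) (hF : ∀ a, (F a).IsHomogeneous (d a))
    (hgt : ∀ (E E' : Type) [Field E] [Field E'] [Algebra K E] [Algebra K E'] [Algebra E E']
      [IsScalarTower K E E'] [FiniteDimensional E E'] [Algebra.EssFiniteType K E] (w : ℕ)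
      (z : Fin (n + 1) → E'), 0 < w → Module.finrank E E' ≤ r → Algebra.trdeg K E = w → z ≠ 0 →
      Algebra.IsAlgebraic (coords K z) E' →
      (∀ f ∈ V, MvPolynomial.aeval z (MvPolynomial.map (algebraMap k0 K) f) = 0) →
      (∀ a, MvPolynomial.aeval z (F a) = 0) → GeneralType K E w)
    {x : Fin (n + 1) → L'} (hx0 : x ≠ 0) (halg : Algebra.IsAlgebraic (coords K x) L')
    (hxV : ∀ f ∈ V, MvPolynomial.aeval x (MvPolynomial.map (algebraMap k0 K) f) = 0)
    (hxF : ∀ a, MvPolynomial.aeval x (F a) = 0) {M : ℕ} {u : Fin (M + 1) → L} (hu : u ≠ 0)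
    (hgen : coords K u = ⊤) : StronglyGeneral K u := by
  classical
  obtain ⟨c0, hc0'⟩ := Function.ne_iff.1 hx0
  have hc0 : x c0 ≠ 0 := hc0'
  obtain ⟨i1, hi1'⟩ := Function.ne_iff.1 hu
  have hi1 : u i1 ≠ 0 := hi1'
  obtain ⟨v, hv⟩ : ∃ v : Fin (n + 1) → L', v = fun j => x j / x c0 := ⟨_, rfl⟩
  have hv1 : v c0 = 1 := by
    rw [hv]
    exact div_self hc0
  have hco : coords K x ≤ IntermediateField.adjoin K (Set.range v) := by
    unfold coords
    rw [IntermediateField.adjoin_le_iff]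
    rintro z ⟨i, j, hj, rfl⟩
    have h2 : x i / x j = v i / v j := by
      rw [hv]
      field_simp
    rw [h2]
    exact div_mem (IntermediateField.subset_adjoin _ _ ⟨i, rfl⟩)
      (IntermediateField.subset_adjoin _ _ ⟨j, rfl⟩)
  have hevv : ∀ (e : ℕ) (G : MvPolynomial (Fin (n + 1)) K), G.IsHomogeneous e →
      MvPolynomial.aeval x G = 0 → MvPolynomial.aeval v G = 0 := by
    intro e G hG h
    rw [hv, aeval_div hG, h, mul_zero]
  obtain ⟨H₂, hH₂, hspec⟩ := alg_spec_aff (k := K) v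
    (fun m : Fin (M + 1) => algebraMap L L' (u m / u i1)) (fun m =>
      mem_aclo.2 ((Pool.Agent.W602.GT.alg_mono hco halg).isAlgebraic _))
  obtain ⟨H, hH, hE⟩ := spread (K' := L') (adjoin_norm hgen hi1)
    (Θ := Set.range v ∪ {(MvPolynomial.aeval v H₂)⁻¹})
    ((Set.finite_range _).union (Set.finite_singleton _))
  refine ⟨MvPolynomial.X i1 * hz i1 H, ?_, ?_, ?_⟩
  · obtain ⟨e, he⟩ := hz_form i1 H
    exact ⟨1 + e, (MvPolynomial.isHomogeneous_X K i1).mul he⟩
  · change MvPolynomial.aeval u _ ≠ 0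
    rw [map_mul, MvPolynomial.aeval_X]
    refine mul_ne_zero hi1 ?_
    change val u _ ≠ 0
    rw [val_hz H hi1]
    exact mul_ne_zero (pow_ne_zero _ hi1) hH
  intro E _ _ w' z hz hzR hw1 htr
  change MvPolynomial.aeval z _ ≠ 0 at hzR
  rw [map_mul, MvPolynomial.aeval_X] at hzR
  have hz1 : z i1 ≠ 0 := left_ne_zero_of_mul hzR
  have hzH : MvPolynomial.aeval (fun i => z i / z i1) H ≠ 0 := by
    have h1 : val z (Pool.Agent.TH466.QG.hz i1 H) ≠ 0 := right_ne_zero_of_mul hzR
    rw [val_hz H hz1] at h1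
    exact right_ne_zero_of_mul h1
  have hsp : ∀ G : MvPolynomial (Fin (M + 1)) K,
      MvPolynomial.aeval (fun i => u i / u i1) G = 0 →
      MvPolynomial.aeval (fun i => z i / z i1) G = 0 := by
    intro G hG
    have h1 : val u (Pool.Agent.TH466.QG.hz i1 G) = 0 := by
      rw [val_hz G hi1, hG, mul_zero]
    have h2 := hz.spec _ (hz_form i1 G) h1
    rw [val_hz G hz1] at h2
    exact (mul_eq_zero.1 h2).resolve_left (pow_ne_zero _ hz1)
  obtain ⟨K'', i1', i2', i3', i4', i5', hrk, S, hSx, hSΘ⟩ := hE E (fun i => z i / z i1) hsp hzH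
  choose v' hv' using fun j => hSΘ (v j) (Or.inl ⟨j, rfl⟩)
  have hv'1 : v' c0 = 1 := by
    have h1 := hv' c0
    rw [hv1] at h1
    exact S.ext h1 S.one
  have hv'0 : v' ≠ 0 := by
    intro h
    rw [h] at hv'1
    exact zero_ne_one hv'1
  have hmem := hspec K'' S (hSΘ _ (Or.inr rfl)) v' hv'
    (fun m => algebraMap E K'' (z m / z i1)) hSx
  have hess : Algebra.EssFiniteType K E := ess_of_gen hz.gen
  have halg' : Algebra.IsAlgebraic (coords K v') K'' := by
    have hle : IntermediateField.adjoin K (Set.range v') ≤ coords K v' := by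
      rw [IntermediateField.adjoin_le_iff]
      rintro _ ⟨j, rfl⟩
      refine IntermediateField.subset_adjoin _ _ ⟨j, c0, ?_, ?_⟩
      · rw [hv'1]
        exact one_ne_zero
      · rw [hv'1, div_one]
    have hE₁ : (IntermediateField.adjoin K (Set.range fun i => z i / z i1)).map
        (IsScalarTower.toAlgHom K E K'') ≤ aclo K (Set.range v') := by
      rw [IntermediateField.adjoin_map, IntermediateField.adjoin_le_iff]
      rintro _ ⟨_, ⟨i, rfl⟩, rfl⟩
      exact hmem i
    have hE₂ : ∀ e : E, algebraMap E K'' e ∈ aclo K (Set.range v') := by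
      intro e
      refine hE₁ ⟨e, ?_, rfl⟩
      rw [adjoin_norm hz.gen hz1]
      exact IntermediateField.mem_top
    have h3 : Algebra.IsAlgebraic (IntermediateField.adjoin K (Set.range v')) K'' := by
      constructor
      intro t
      rw [← mem_aclo]
      apply aclo_closed
      obtain ⟨q, hq, hqt⟩ := Algebra.IsAlgebraic.isAlgebraic (R := E) t
      let φ : E →+* aclo K (Set.range v') :=
        (algebraMap E K'').codRestrict _ hE₂
      refine ⟨q.map φ, ?_, ?_⟩
      · rw [Ne, Polynomial.map_eq_zero]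
        exact hq
      · rw [← hqt, Polynomial.aeval_def, Polynomial.eval₂_map, Polynomial.aeval_def]
        rfl
    exact Pool.Agent.W602.GT.alg_mono hle h3
  refine hgt E K'' w' v' hw1 (hrk.trans hr) htr hv'0 halg' (fun f hf => ?_) (fun a => ?_)
  · obtain ⟨e, he⟩ := hVh f hf
    exact S.eq_zero (sp_val S hv' _) (hevv e _ (he.map _) (hxV f hf))
  · exact S.eq_zero (sp_val S hv' _) (hevv _ _ (hF a) (hxF a))

section

variable {k0 K L L' : Type} [Field k0] [Field K] [Field L] [Field L'] [Algebra k0 K]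
    [Algebra K L] [Algebra K L'] [Algebra L L'] [IsScalarTower K L L'] [FiniteDimensional L L']
    [IsAlgClosed K] [CharZero K] {n m r : ℕ} {A : Type} [Fintype A] {d : A → ℕ}

/-- **Subvarieties of images.** -/
theorem img_strong (V : Set (MvPolynomial (Fin (n + 1)) k0))
    (hVh : ∀ f ∈ V, ∃ e, f.IsHomogeneous e) (hV : DimLE k0 V m)
    (hr : Module.finrank L L' ≤ r) (hd : 2 * m + 2 * r ≤ ∑ a, (d a + 1) + 1)
    (F : A → MvPolynomial (Fin (n + 1)) K) (hF : ∀ a, (F a).IsHomogeneous (d a))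
    (I0 : A → Fin (n + 1) →₀ ℕ) (h0 : ∀ a, (F a).coeff (I0 a) ≠ 0)
    (hind : AlgebraicIndependent k0 fun p : Rt d I0 =>
      (F p.1).coeff p.2.1 / (F p.1).coeff (I0 p.1))
    {x : Fin (n + 1) → L'} (hx0 : x ≠ 0) (halg : Algebra.IsAlgebraic (coords K x) L')
    (hxV : ∀ f ∈ V, MvPolynomial.aeval x (MvPolynomial.map (algebraMap k0 K) f) = 0)
    (hxF : ∀ a, MvPolynomial.aeval x (F a) = 0) {M : ℕ} {u : Fin (M + 1) → L} (hu : u ≠ 0)
    (hgen : coords K u = ⊤) : StronglyGeneral K u := by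
  classical
  exact img_strong_of V hVh hr F hF (fun E E' _ _ _ _ _ _ _ _ w z hw hrE htr hz halgz hzV hzF =>
    img_general V hVh hV hw hrE (by omega) F hF I0 h0 hind htr hz halgz hzV hzF) hx0 halg hxV hxF
    hu hgen

/-- **Subvarieties of images**, if there are no lines. -/
theorem img_strong_line [IsAlgClosed k0] (V : Set (MvPolynomial (Fin (n + 1)) k0))
    (hVh : ∀ f ∈ V, ∃ e, f.IsHomogeneous e) (hV : DimLE k0 V m)
    (hr : Module.finrank L L' ≤ r) (hd : 2 * m + 1 + r ≤ ∑ a, (d a + 1) + 1)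
    (hd2 : 2 * m + 2 ≤ ∑ a, (d a + 1))
    (F : A → MvPolynomial (Fin (n + 1)) K) (hF : ∀ a, (F a).IsHomogeneous (d a))
    (I0 : A → Fin (n + 1) →₀ ℕ) (h0 : ∀ a, (F a).coeff (I0 a) ≠ 0)
    (hind : AlgebraicIndependent k0 fun p : Rt d I0 =>
      (F p.1).coeff p.2.1 / (F p.1).coeff (I0 p.1))
    {x : Fin (n + 1) → L'} (hx0 : x ≠ 0) (halg : Algebra.IsAlgebraic (coords K x) L')
    (hxV : ∀ f ∈ V, MvPolynomial.aeval x (MvPolynomial.map (algebraMap k0 K) f) = 0)
    (hxF : ∀ a, MvPolynomial.aeval x (F a) = 0) {M : ℕ} {u : Fin (M + 1) → L} (hu : u ≠ 0)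
    (hgen : coords K u = ⊤) : StronglyGeneral K u := by
  classical
  exact img_strong_of V hVh hr F hF (fun E E' _ _ _ _ _ _ _ _ w z hw hrE htr hz halgz hzV hzF =>
    img_line V hVh hV hw hrE (by omega) hd2 F hF I0 h0 hind htr hz halgz hzV hzF) hx0 halg hxV
    hxF hu hgen

end

end Pool.Agent.N111.GI
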