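import Pool.Agent.N111.GI.Pts
import Pool.Agent.N111.GI.Str
import Pool.Agent.Y735.R2.Main2

/-!
Multi-valued maps to generic complete intersections, and the points over finitely generated fields
of the varieties on which they are defined.
-/

set_option autoImplicit false
set_option linter.overlappingInstances false
set_option linter.unusedSectionVars false
set_option maxHeartbeats 1000000

open FF IntermediateField

namespace Pool.Agent.N111.GI

open Pool.Agent.TH466.QG Pool.Agent.N111.FT Pool.Agent.N111.GG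
open Pool.Agent.W602.GT (val coords IsForm VarPts)
open Pool.Agent.TH145.MG (DimLE)

/-- A generic complete intersection over `K`, generic over its subfield `k`: the intersection of a
closed subset `V` of a projective space, defined over the algebraic closure of `k` in `K`, of
dimension at most `m`, and of the hypersurfaces `F a = 0` of degrees `d a`, where the ratios of the
coefficients of `F a` to one of them are, for all `a` together, algebraically independent over `k`. -/
structure GenericCI (k K : Type) [Field k] [Field K] [Algebra k K] where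
  /-- the dimension of the projective space -/
  n : ℕ
  /-- a bound for the dimension of the closed subset -/
  m : ℕ
  /-- the equations of the closed subset -/
  V : Set (MvPolynomial (Fin (n + 1)) (algebraicClosure k K))
  V_form : ∀ f ∈ V, ∃ e, f.IsHomogeneous e
  V_dim : DimLE (algebraicClosure k K) V m
  /-- the indices of the hypersurfaces -/
  A : Type
  [fin : Fintype A]
  /-- the degrees -/
  d : A → ℕ
  /-- the generic forms -/
  F : A → MvPolynomial (Fin (n + 1)) K
  F_form : ∀ a, (F a).IsHomogeneous (d a)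
  I₀ : A → Fin (n + 1) →₀ ℕ
  coeff_ne : ∀ a, (F a).coeff (I₀ a) ≠ 0
  generic : AlgebraicIndependent k
    fun p : (a : A) × {I : Fin (n + 1) →₀ ℕ // I.degree = d a ∧ I ≠ I₀ a} =>
      (F p.1).coeff p.2.1 / (F p.1).coeff (I₀ p.1)

attribute [instance] GenericCI.fin

/-- The point of projective space with homogeneous coordinates `x` in an extension of `K` lies on the
generic complete intersection. -/
structure GenericCI.Point {k K : Type} [Field k] [Field K] [Algebra k K] (X : GenericCI k K)
    {E : Type} [Field E] [Algebra K E] (x : Fin (X.n + 1) → E) : Prop where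
  ne : x ≠ 0
  mem_V : ∀ f ∈ X.V, MvPolynomial.aeval x (f.map (algebraMap (algebraicClosure k K) K)) = 0
  mem_F : ∀ a, MvPolynomial.aeval x (X.F a) = 0

/-- A multi-valued map, with at most `r` values, from the variety over `K` with function field `L` to
a generic complete intersection `X` (generic over `k`), for which the sum of the numbers `d a + 1` is
at least `2 m + 1 + r`: a point of `X` with coordinates in an extension `L'` of `L` of degree at most
`r`. -/
structure RMap (k K L : Type) [Field k] [Field K] [Algebra k K] [Field L] [Algebra K L] (r : ℕ) where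
  /-- the target -/
  X : GenericCI k K
  bound : 2 * X.m + 1 + r ≤ ∑ a, (X.d a + 1)
  /-- the extension of the function field -/
  L' : Type
  [field : Field L']
  [algK : Algebra K L']
  [algL : Algebra L L']
  [tower : IsScalarTower K L L']
  [fd : FiniteDimensional L L']
  deg_le : Module.finrank L L' ≤ r
  /-- the point -/
  x : Fin (X.n + 1) → L'
  pt : X.Point x

attribute [instance] RMap.field RMap.algK RMap.algL RMap.tower RMap.fd

/-- The values of the ratios of the coordinates under all branches of the multi-valued map: they are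
algebraic functions on the variety with function field `L`, that is, elements of an algebraically
closed extension of `L`. -/
def RMap.values {k K L : Type} [Field k] [Field K] [Algebra k K] [Field L] [Algebra K L] {r : ℕ}
    (C : RMap k K L r) (Ω : Type) [Field Ω] [Algebra L Ω] : Set Ω :=
  {z | ∃ (ψ : C.L' →ₐ[L] Ω) (i j : Fin (C.X.n + 1)), C.x j ≠ 0 ∧ z = ψ (C.x i / C.x j)}

section engine

variable {k K L : Type} [Field k] [Field K] [IsAlgClosed K] [CharZero K] [Algebra k K] [Field L]
  [Algebra K L] {r : ℕ}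

/-- the field generated by a finite set over the algebraic closure of `k` -/
abbrev kT (k : Type) {K : Type} [Field k] [Field K] [Algebra k K] (T : Finset K) :=
  IntermediateField.adjoin (algebraicClosure k K) (T : Set K)

/-- the set of the ratios of the coordinates of the points of bounded degree is finite -/
theorem GenericCI.fin_ratio (X : GenericCI k K) (hX : 2 * X.m + 1 + r ≤ ∑ a, (X.d a + 1))
    (T : Finset K) (i j : Fin (X.n + 1)) :
    {c : K | ∃ x : Fin (X.n + 1) → K, X.Point x ∧ (∃ L : IntermediateField (kT k T) K,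
      FiniteDimensional (kT k T) L ∧ Module.finrank (kT k T) L ≤ r ∧ ∀ l, x l ∈ L) ∧
      c = x i / x j}.Finite := by
  classical
  have h1 := Pool.Agent.Y735.R2.fin_proj_alg (r := r) hX X.V X.V_form X.V_dim X.F X.F_form X.I₀
    X.coeff_ne X.generic T
  refine (h1.image fun p => p.rep i / p.rep j).subset ?_
  rintro c ⟨x, hx, hL, rfl⟩
  refine ⟨Projectivization.mk K x hx.ne, ⟨x, fun f hf => ?_, fun a => ?_, hL, hx.ne, rfl⟩, ?_⟩
  · have h2 := hx.mem_V f hf
    rwa [MvPolynomial.aeval_map_algebraMap] at h2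
  · have h2 := hx.mem_F a
    rwa [MvPolynomial.aeval_eq_eval] at h2
  · obtain ⟨a, ha⟩ := Projectivization.exists_smul_eq_mk_rep K x hx.ne
    change (Projectivization.mk K x hx.ne).rep i / (Projectivization.mk K x hx.ne).rep j = _
    rw [← ha]
    simp only [Pi.smul_apply, Units.smul_def, smul_eq_mul]
    exact mul_div_mul_left _ _ a.ne_zero

/-- **Points over finitely generated fields lie in finitely many fibres**, for a finite family. -/
theorem fin_fam {J : Type} [Finite J] (C : J → RMap k K L r) {M' : Type} [Field M'] [Algebra K M']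
    [Algebra L M'] [IsScalarTower K L M'] [FiniteDimensional L M'] (ψ : ∀ j, (C j).L' →ₐ[L] M')
    (ci cj : ∀ j, Fin ((C j).X.n + 1)) (hcj : ∀ j, (C j).x (cj j) ≠ 0)
    {M : ℕ} {X : Fin (M + 1) → L} (hX : X ≠ 0) (hgen : coords K X = ⊤) {q e : ℕ}
    {G : Fin (q + 1) → MvPolynomial (Fin (M + 1)) K} (hG : ∀ i, (G i).IsHomogeneous e)
    {i₀ : Fin (q + 1)} (h0 : val X (G i₀) ≠ 0)
    (hg : ∀ i, algebraMap L M' (val X (G i) / val X (G i₀)) ∈
      aclo K (Set.range fun j => ψ j ((C j).x (ci j) / (C j).x (cj j)))) :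
    ∃ R : MvPolynomial (Fin (M + 1)) K, IsForm R ∧ val X R ≠ 0 ∧ ∀ T : Finset K,
      {c : Fin (q + 1) → K | ∃ u ∈ VarPts K X, MvPolynomial.eval u R ≠ 0 ∧
        (∀ i, u i ∈ kT k T) ∧ MvPolynomial.eval u (G i₀) ≠ 0 ∧
        ∀ i, c i = MvPolynomial.eval u (G i) / MvPolynomial.eval u (G i₀)}.Finite := by
  classical
  obtain ⟨i1, hi1'⟩ := Function.ne_iff.1 hX
  have hi1 : X i1 ≠ 0 := hi1'
  obtain ⟨vv, hvv⟩ : ∃ vv : J → M', vv = fun j => ψ j ((C j).x (ci j) / (C j).x (cj j)) :=
    ⟨_, rfl⟩
  rw [← hvv] at hg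
  obtain ⟨H₂, hH₂, Q, hQ0, hQ⟩ := alg_pts (K := K) vv
    (fun m => algebraMap L M' (val X (G m) / val X (G i₀))) hg
  have hD : MvPolynomial.aeval (fun i => X i / X i1) (G i₀) ≠ 0 := by
    intro h1
    apply h0
    rw [aeval_norm (hG i₀) hi1, h1, mul_zero]
  have hratio : ∀ m, val X (G m) / val X (G i₀) =
      MvPolynomial.aeval (fun i => X i / X i1) (G m) /
        MvPolynomial.aeval (fun i => X i / X i1) (G i₀) := by
    intro m
    rw [aeval_norm (hG m) hi1, aeval_norm (hG i₀) hi1]
    have := pow_ne_zero e hi1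
    field_simp
  obtain ⟨H, hH, T₀, hE⟩ := spread_pts (K := K) (L := L) (M := M') (adjoin_norm hgen hi1)
    (Θ := {(MvPolynomial.aeval vv H₂)⁻¹,
      (algebraMap L M' (MvPolynomial.aeval (fun i => X i / X i1) (G i₀)))⁻¹})
    (Set.toFinite _) ψ (Θ' := fun v => Set.range fun i => (C v).x i / (C v).x (cj v))
    (fun v => Set.finite_range _)
  refine ⟨MvPolynomial.X i1 * hz i1 H * G i₀, ?_, ?_, fun T => ?_⟩
  · obtain ⟨d, hd⟩ := hz_form i1 H
    exact ⟨1 + d + e, ((MvPolynomial.isHomogeneous_X K i1).mul hd).mul (hG i₀)⟩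
  · change MvPolynomial.aeval X _ ≠ 0
    rw [map_mul, map_mul, MvPolynomial.aeval_X]
    refine mul_ne_zero (mul_ne_zero hi1 ?_) h0
    change val X _ ≠ 0
    rw [val_hz H hi1]
    exact mul_ne_zero (pow_ne_zero _ hi1) hH
  -- the finite sets of the values
  obtain ⟨D, hD1⟩ : ∃ D : J → Set K, D = fun j => {c : K | ∃ x : Fin ((C j).X.n + 1) → K,
      (C j).X.Point x ∧ (∃ L : IntermediateField (kT k (T ∪ T₀)) K,
      FiniteDimensional (kT k (T ∪ T₀)) L ∧ Module.finrank (kT k (T ∪ T₀)) L ≤ r ∧
        ∀ l, x l ∈ L) ∧ c = x (ci j) / x (cj j)} := ⟨_, rfl⟩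
  have hDf : ∀ j, (D j).Finite := by
    intro j
    rw [hD1]
    exact (C j).X.fin_ratio (C j).bound (T ∪ T₀) (ci j) (cj j)
  have hfin : (⋃ v' ∈ Set.univ.pi D, ⋃ m, (↑(Q m v').roots.toFinset : Set K)).Finite :=
    (Set.Finite.pi hDf).biUnion fun v' _ => Set.finite_iUnion fun m => Finset.finite_toSet _
  refine (Set.Finite.pi' (ι := Fin (q + 1)) fun _ => hfin).subset ?_
  rintro c ⟨u, huX, huR, huT, hu0, hc⟩ m
  rw [map_mul, map_mul, MvPolynomial.eval_X] at huR
  have hu1 : u i1 ≠ 0 := left_ne_zero_of_mul (left_ne_zero_of_mul huR)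
  have huH : MvPolynomial.eval (fun i => u i / u i1) H ≠ 0 := by
    have h1 : MvPolynomial.eval u (hz i1 H) ≠ 0 := right_ne_zero_of_mul (left_ne_zero_of_mul huR)
    have h2 : val u (hz i1 H) ≠ 0 := by
      change MvPolynomial.aeval u _ ≠ 0
      rwa [MvPolynomial.aeval_eq_eval]
    rw [val_hz H hu1] at h2
    have h3 := right_ne_zero_of_mul h2
    rwa [MvPolynomial.aeval_eq_eval] at h3
  have hsp : ∀ P : MvPolynomial (Fin (M + 1)) K,
      MvPolynomial.aeval (fun i => X i / X i1) P = 0 →
      MvPolynomial.eval (fun i => u i / u i1) P = 0 := by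
    intro P hP
    have h1 : val X (hz i1 P) = 0 := by
      rw [val_hz P hi1, hP, mul_zero]
    have h2 := huX.2 _ (hz_form i1 P) h1
    rw [val_hz P hu1] at h2
    have h3 := (mul_eq_zero.1 h2).resolve_left (pow_ne_zero _ hu1)
    rwa [MvPolynomial.aeval_eq_eval] at h3
  obtain ⟨S, hSx, hSΘ, hSj⟩ := hE (fun i => u i / u i1) hsp huH
  have hcu : ∀ a ∈ T ∪ T₀, a ∈ (algebraMap (kT k (T ∪ T₀)) K).fieldRange := fun a ha =>
    ⟨⟨a, IntermediateField.subset_adjoin _ _ (Finset.mem_coe.2 ha)⟩, rfl⟩
  have hle : kT k T ≤ kT k (T ∪ T₀) :=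
    IntermediateField.adjoin.mono _ _ _ (Finset.coe_subset.2 Finset.subset_union_left)
  have key : ∀ j, ∃ v' ∈ D j, S.T (vv j) v' := by
    intro j
    obtain ⟨t, ht, htd, hΘ⟩ := hSj (kT k (T ∪ T₀))
      (fun a ha => hcu a (Finset.mem_union_right _ ha))
      (fun i => ⟨⟨u i / u i1, div_mem (hle (huT i)) (hle (huT i1))⟩, rfl⟩) j
    choose y hy hSy using fun i => hΘ ((C j).x i / (C j).x (cj j)) ⟨i, rfl⟩
    have hy1 : y (cj j) = 1 := by
      have h1 := hSy (cj j)
      rw [div_self (hcj j), map_one] at h1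
      exact S.ext h1 S.one
    have hev : ∀ (d : ℕ) (P : MvPolynomial (Fin ((C j).X.n + 1)) K), P.IsHomogeneous d →
        MvPolynomial.aeval (C j).x P = 0 → MvPolynomial.aeval y P = 0 := by
      intro d P hP h
      refine S.eq_zero (sp_val S hSy P) ?_
      have h1 : MvPolynomial.aeval (fun i => ψ j ((C j).x i / (C j).x (cj j))) P =
          ψ j (MvPolynomial.aeval (fun i => (C j).x i / (C j).x (cj j)) P) := by
        have h2 : ((ψ j).restrictScalars K).comp (MvPolynomial.aeval
            (fun i => (C j).x i / (C j).x (cj j))) =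
            MvPolynomial.aeval (fun i => ψ j ((C j).x i / (C j).x (cj j))) := by
          apply MvPolynomial.algHom_ext
          intro i
          simp
        rw [← h2]
        rfl
      rw [h1, aeval_div hP, h, mul_zero, map_zero]
    refine ⟨y (ci j), ?_, ?_⟩
    · rw [hD1]
      refine ⟨y, ⟨fun h => ?_, fun f hf => ?_, fun a => ?_⟩, ⟨(kT k (T ∪ T₀))⟮t⟯,
        IntermediateField.adjoin.finiteDimensional ht, ?_, hy⟩, ?_⟩
      · rw [h] at hy1
        exact zero_ne_one hy1
      · obtain ⟨d, hd⟩ := (C j).X.V_form f hf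
        exact hev d _ (hd.map _) ((C j).pt.mem_V f hf)
      · exact hev _ _ ((C j).X.F_form a) ((C j).pt.mem_F a)
      · rw [IntermediateField.adjoin.finrank ht]
        exact htd.trans (C j).deg_le
      · rw [hy1, div_one]
    · rw [hvv]
      exact hSy (ci j)
  choose v' hv'D hv'S using key
  have hpoly : ∀ P : MvPolynomial (Fin (M + 1)) K,
      S.T (algebraMap L M' (MvPolynomial.aeval (fun i => X i / X i1) P))
        (MvPolynomial.eval (fun i => u i / u i1) P) := by
    intro P
    have h1 := sp_val S hSx P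
    rw [MvPolynomial.aeval_eq_eval] at h1
    have h2 : MvPolynomial.aeval (fun i => algebraMap L M' (X i / X i1)) P =
        algebraMap L M' (MvPolynomial.aeval (fun i => X i / X i1) P) :=
      MvPolynomial.aeval_algebraMap_apply M' (fun i => X i / X i1) P
    rw [h2] at h1
    exact h1
  have hgu : S.T (algebraMap L M' (val X (G m) / val X (G i₀))) (c m) := by
    have h1 : algebraMap L M' (MvPolynomial.aeval (fun i => X i / X i1) (G i₀)) ≠ 0 := by
      rw [Ne, map_eq_zero]
      exact hD
    have h2 := S.mul (hpoly (G m)) (S.inv (hpoly (G i₀)) (hSΘ _ (Or.inr rfl)) h1)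
    have h3 : c m = MvPolynomial.eval (fun i => u i / u i1) (G m) *
        (MvPolynomial.eval (fun i => u i / u i1) (G i₀))⁻¹ := by
      rw [hc m]
      have h4 := aeval_norm (k := K) (hG m) hu1
      have h5 := aeval_norm (k := K) (hG i₀) hu1
      change MvPolynomial.aeval u _ = _ at h4
      change MvPolynomial.aeval u _ = _ at h5
      rw [MvPolynomial.aeval_eq_eval, MvPolynomial.aeval_eq_eval] at h4 h5
      rw [h4, h5]
      have := pow_ne_zero e hu1
      field_simp
    rw [h3, hratio m, div_eq_mul_inv, map_mul, map_inv₀]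
    exact h2
  have hroot := hQ S (hSΘ _ (Or.inl rfl)) v' hv'S m (c m) hgu
  refine Set.mem_iUnion₂.2 ⟨v', fun j _ => hv'D j, Set.mem_iUnion.2 ⟨m, ?_⟩⟩
  rw [Finset.mem_coe, Multiset.mem_toFinset, Polynomial.mem_roots (hQ0 m v')]
  exact hroot

/-- **Points over finitely generated fields lie in finitely many fibres.** -/
theorem fin_fibres (Ω : Type) [Field Ω] [Algebra K Ω] [Algebra L Ω] [IsScalarTower K L Ω]
    {M : ℕ} {X : Fin (M + 1) → L} (hX : X ≠ 0) (hgen : coords K X = ⊤) {q e : ℕ}
    {G : Fin (q + 1) → MvPolynomial (Fin (M + 1)) K} (hG : ∀ i, (G i).IsHomogeneous e)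
    {i₀ : Fin (q + 1)} (h0 : val X (G i₀) ≠ 0)
    (hh : ∀ i, algebraMap L Ω (val X (G i) / val X (G i₀)) ∈
      aclo K (⋃ C : RMap k K L r, C.values Ω)) :
    ∃ R : MvPolynomial (Fin (M + 1)) K, IsForm R ∧ val X R ≠ 0 ∧ ∀ T : Finset K,
      {c : Fin (q + 1) → K | ∃ u ∈ VarPts K X, MvPolynomial.eval u R ≠ 0 ∧
        (∀ i, u i ∈ kT k T) ∧ MvPolynomial.eval u (G i₀) ≠ 0 ∧
        ∀ i, c i = MvPolynomial.eval u (G i) / MvPolynomial.eval u (G i₀)}.Finite := by
  classical
  -- finitely many values
  choose T hTV hT using fun m => aclo_finite (hh m)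
  let W : Set Ω := ⋃ m, (T m : Set Ω)
  have hWf : W.Finite := Set.finite_iUnion fun m => (T m).finite_toSet
  have hWF : Finite W := hWf
  have hW : ∀ v : W, ∃ (C : RMap k K L r) (ψ : C.L' →ₐ[L] Ω)
      (i j : Fin (C.X.n + 1)), C.x j ≠ 0 ∧ (v : Ω) = ψ (C.x i / C.x j) := by
    rintro ⟨v, hv⟩
    obtain ⟨m, hm⟩ := Set.mem_iUnion.1 hv
    obtain ⟨C, ψ, i, j, hj, hz⟩ := Set.mem_iUnion.1 (hTV m hm)
    exact ⟨C, ψ, i, j, hj, hz⟩
  choose C ψ ci cj hcj hzv using hW
  let M' : IntermediateField L Ω := ⨆ v : W, (ψ v).fieldRange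
  have hfr : ∀ v, FiniteDimensional L (ψ v).fieldRange := fun v =>
    LinearMap.finiteDimensional_range (ψ v).toLinearMap
  have hM : FiniteDimensional L M' := IntermediateField.finiteDimensional_iSup_of_finite
  let ψ' : ∀ v, (C v).L' →ₐ[L] M' := fun v => (ψ v).codRestrict M'.toSubalgebra (fun z =>
    (le_iSup (fun v => (ψ v).fieldRange) v) ⟨z, rfl⟩)
  refine fin_fam C ψ' ci cj hcj hX hgen hG h0 fun m => ?_
  rw [← map_mem_aclo_iff (M'.val.restrictScalars K)]
  refine aclo_mono ?_ (hT m)
  intro v hv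
  let v' : W := ⟨v, Set.mem_iUnion.2 ⟨m, hv⟩⟩
  exact ⟨ψ' v' ((C v').x (ci v') / (C v').x (cj v')), ⟨v', rfl⟩, (hzv v').symm⟩

end engine

end Pool.Agent.N111.GI
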