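import Pool.Agent.N111.GG.SP

/-!
Specializations of finite extensions at points: the fields of definition.
-/

set_option autoImplicit false
set_option linter.overlappingInstances false
set_option linter.unusedSectionVars false

open FF IntermediateField Polynomial

namespace Pool.Agent.N111.GI

open Pool.Agent.TH466.QG Pool.Agent.N111.FT Pool.Agent.N111.GG
open Pool.Agent.W602.GT (val coords)

theorem eval_mem_sub {K σ : Type} [Field K] {S : Subfield K} {G : MvPolynomial σ K}
    (hG : ∀ c ∈ G.coeffs, c ∈ S) {z : σ → K} (hz : ∀ i, z i ∈ S) : MvPolynomial.eval z G ∈ S := by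
  rw [MvPolynomial.eval_eq]
  refine sum_mem fun d hd => mul_mem (hG _ ?_) (prod_mem fun i _ => pow_mem (hz i) _)
  exact MvPolynomial.coeff_mem_coeffs _ (MvPolynomial.mem_support_iff.1 hd)

/-- specializations with values in a finite extension of an algebraically closed field -/
theorem sp_pull {K M K'' : Type} [Field K] [Field M] [Field K''] [Algebra K M] [Algebra K K'']
    [FiniteDimensional K K''] [IsAlgClosed K] (S : Sp K M K'') : ∃ S' : Sp K M K,
      (∀ a b, S.T a (algebraMap K K'' b) → S'.T a b) ∧ ∀ a b, S.T a b → ∃ t, S'.T a t := by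
  have hbij : Function.Bijective (algebraMap K K'') :=
    IsAlgClosed.algebraMap_bijective_of_isIntegral
  let S' : Sp K M K :=
    { T := fun a b => S.T a (algebraMap K K'' b)
      add := fun {a b a' b'} h h' => by
        have := S.add h h'
        rwa [← map_add] at this
      mul := fun {a b a' b'} h h' => by
        have := S.mul h h'
        rwa [← map_mul] at this
      const := fun c => S.const c
      uniq := fun {a} h => by
        have := S.uniq h
        exact (map_eq_zero _).1 this }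
  refine ⟨S', fun a b h => h, fun a b h => ?_⟩
  obtain ⟨t, rfl⟩ := hbij.2 b
  exact ⟨t, h⟩

theorem sp_pts {K L M : Type} [Field K] [CharZero K] [IsAlgClosed K] [Field L] [Field M]
    [Algebra K L] [Algebra K M] [Algebra L M] [IsScalarTower K L M] [FiniteDimensional L M]
    {σ : Type} {x : σ → L} (hx : adjoin K (Set.range x) = ⊤) {Θ : Set M} (hΘ : Θ.Finite) :
    ∃ H : MvPolynomial σ K, MvPolynomial.aeval x H ≠ 0 ∧ ∀ z : σ → K,
        (∀ G : MvPolynomial σ K, MvPolynomial.aeval x G = 0 → MvPolynomial.eval z G = 0) →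
        MvPolynomial.eval z H ≠ 0 →
        ∃ S : Sp K M K, (∀ i, S.T (algebraMap L M (x i)) (z i)) ∧ ∀ ϑ ∈ Θ, ∃ t, S.T ϑ t := by
  obtain ⟨H, hH, hspread⟩ := spread (K' := M) hx hΘ
  refine ⟨H, hH, fun z hz hzH => ?_⟩
  obtain ⟨K'', i1, i2, i3, i4, i5, -, S, hSx, hSΘ⟩ := hspread K z
    (fun P hP => by rw [MvPolynomial.aeval_eq_eval]; exact hz P hP)
    (by rw [MvPolynomial.aeval_eq_eval]; exact hzH)
  have e : i3 = i2 := by
    apply Algebra.algebra_ext
    intro c
    exact (@IsScalarTower.algebraMap_apply K K K'' _ _ _ _ i3 i2 i4 c).symm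
  subst e
  obtain ⟨S', h1, h2⟩ := sp_pull S
  refine ⟨S', fun i => h1 _ _ (hSx i), fun ϑ hϑ => ?_⟩
  obtain ⟨t, ht⟩ := hSΘ ϑ hϑ
  exact h2 _ _ ht

/-- **Spreading out at points**, with the fields of definition. -/
theorem spread_pts {K L M : Type} [Field K] [CharZero K] [IsAlgClosed K] [Field L] [Field M]
    [Algebra K L] [Algebra K M] [Algebra L M] [IsScalarTower K L M] [FiniteDimensional L M]
    {σ : Type} {x : σ → L} (hx : adjoin K (Set.range x) = ⊤) {Θ : Set M} (hΘ : Θ.Finite)
    {J : Type} [Finite J] {Kj : J → Type} [∀ j, Field (Kj j)] [∀ j, Algebra L (Kj j)]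
    [∀ j, FiniteDimensional L (Kj j)] (ψ : ∀ j, Kj j →ₐ[L] M) {Θ' : ∀ j, Set (Kj j)}
    (hΘ' : ∀ j, (Θ' j).Finite) : ∃ H : MvPolynomial σ K, MvPolynomial.aeval x H ≠ 0 ∧
      ∃ T₀ : Finset K, ∀ z : σ → K,
        (∀ G : MvPolynomial σ K, MvPolynomial.aeval x G = 0 → MvPolynomial.eval z G = 0) →
        MvPolynomial.eval z H ≠ 0 →
        ∃ S : Sp K M K, (∀ i, S.T (algebraMap L M (x i)) (z i)) ∧ (∀ ϑ ∈ Θ, ∃ t, S.T ϑ t) ∧
          ∀ (K₁ : Type) [Field K₁] [Algebra K₁ K], (∀ c ∈ T₀, c ∈ (algebraMap K₁ K).fieldRange) →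
            (∀ i, z i ∈ (algebraMap K₁ K).fieldRange) → ∀ j, ∃ t : K, IsIntegral K₁ t ∧
              (minpoly K₁ t).natDegree ≤ Module.finrank L (Kj j) ∧
              ∀ ϑ ∈ Θ' j, ∃ t' ∈ K₁⟮t⟯, S.T (ψ j ϑ) t' := by
  classical
  have hcL : CharZero L := charZero_of_injective_algebraMap (algebraMap K L).injective
  choose θ hθ using fun j => Field.exists_primitive_element L (Kj j)
  have hθi : ∀ j, IsIntegral L (θ j) := fun j => Algebra.IsIntegral.isIntegral (θ j)
  have hrep : ∀ j (ϑ : Kj j), ∃ p : L[X], Polynomial.aeval (θ j) p = ϑ := by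
    intro j ϑ
    have h1 : ϑ ∈ (L⟮θ j⟯).toSubalgebra := by
      rw [hθ j]
      exact IntermediateField.mem_top
    rw [IntermediateField.adjoin_simple_toSubalgebra_of_isAlgebraic (hθi j).isAlgebraic] at h1
    rw [Algebra.adjoin_singleton_eq_range_aeval] at h1
    exact h1
  choose p hp using hrep
  obtain ⟨𝒞, h𝒞⟩ : ∃ 𝒞 : Set L, 𝒞 = ⋃ j, ((↑(minpoly L (θ j)).coeffs : Set L) ∪
      ⋃ ϑ ∈ Θ' j, (↑(p j ϑ).coeffs : Set L)) := ⟨_, rfl⟩
  have hfinS : 𝒞.Finite := by
    rw [h𝒞]
    exact Set.finite_iUnion fun j => (Finset.finite_toSet _).union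
      ((hΘ' j).biUnion fun ϑ _ => Finset.finite_toSet _)
  obtain ⟨H₁, hH₁, hG₁⟩ := exists_den hx hfinS
  choose! G hG using hG₁
  obtain ⟨H, hH, hspread⟩ := sp_pts (M := M) hx
    (Θ := Θ ∪ (Set.range (fun j => ψ j (θ j)) ∪ {(algebraMap L M (MvPolynomial.aeval x H₁))⁻¹}))
    (hΘ.union ((Set.finite_range _).union (Set.finite_singleton _)))
  refine ⟨H, hH, H₁.coeffs ∪ hfinS.toFinset.biUnion fun c => (G c).coeffs,
    fun z hz hzH => ?_⟩
  obtain ⟨S', hx', hΘ1⟩ := hspread z hz hzH
  have hpoly : ∀ P : MvPolynomial σ K, S'.T (algebraMap L M (MvPolynomial.aeval x P))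
      (MvPolynomial.eval z P) := by
    intro P
    induction P using MvPolynomial.induction_on with
    | C c =>
      rw [MvPolynomial.aeval_C, MvPolynomial.eval_C, ← IsScalarTower.algebraMap_apply]
      exact S'.const c
    | add p q hp hq =>
      rw [map_add, map_add, map_add]
      exact S'.add hp hq
    | mul_X p i hp =>
      rw [map_mul, map_mul, map_mul, MvPolynomial.aeval_X, MvPolynomial.eval_X]
      exact S'.mul hp (hx' i)
  have hden0 : algebraMap L M (MvPolynomial.aeval x H₁) ≠ 0 := by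
    rw [Ne, map_eq_zero]
    exact hH₁
  have hden : ∃ t, S'.T (algebraMap L M (MvPolynomial.aeval x H₁))⁻¹ t :=
    hΘ1 _ (Or.inr (Or.inr rfl))
  have hzH₁ : MvPolynomial.eval z H₁ ≠ 0 := S'.ne_zero (hpoly H₁) hden hden0
  have hrat : ∀ c ∈ 𝒞, S'.T (algebraMap L M c)
      (MvPolynomial.eval z (G c) / MvPolynomial.eval z H₁) := by
    intro c hc
    have h2 := S'.inv (hpoly H₁) hden hden0
    have h3 := S'.mul (hpoly (G c)) h2
    rw [← div_eq_mul_inv (MvPolynomial.eval z (G c))] at h3
    have h4 : algebraMap L M c = algebraMap L M (MvPolynomial.aeval x (G c)) *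
        (algebraMap L M (MvPolynomial.aeval x H₁))⁻¹ := by
      rw [← hG c hc, map_mul]
      field_simp
    rw [h4]
    exact h3
  refine ⟨S', hx', fun ϑ hϑ => hΘ1 ϑ (Or.inl hϑ), fun K₁ _ _ hT hzK j => ?_⟩
  -- the coefficients are in the small field
  have hR : ∀ c ∈ 𝒞, ∃ e : K₁, algebraMap K₁ K e =
      MvPolynomial.eval z (G c) / MvPolynomial.eval z H₁ := by
    intro c hc
    have h1 : MvPolynomial.eval z (G c) / MvPolynomial.eval z H₁ ∈
        (algebraMap K₁ K).fieldRange := by
      refine div_mem (eval_mem_sub (fun a ha => hT a ?_) hzK)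
        (eval_mem_sub (fun a ha => hT a ?_) hzK)
      · exact Finset.mem_union_right _ (Finset.mem_biUnion.2 ⟨c, hfinS.mem_toFinset.2 hc, ha⟩)
      · exact Finset.mem_union_left _ ha
    exact h1
  have hval : ∀ (q : L[X]), (∀ c ∈ q.coeffs, c ∈ 𝒞) → ∀ i, ∃ e : K₁,
      S'.T (algebraMap L M (q.coeff i)) (algebraMap K₁ K e) := by
    intro q hq i
    by_cases h0 : q.coeff i = 0
    · exact ⟨0, by rw [h0, map_zero, map_zero]; exact S'.zero⟩
    · obtain ⟨e, he⟩ := hR _ (hq _ (Polynomial.coeff_mem_coeffs h0))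
      exact ⟨e, by rw [he]; exact hrat _ (hq _ (Polynomial.coeff_mem_coeffs h0))⟩
  obtain ⟨t, ht⟩ := hΘ1 (ψ j (θ j)) (Or.inr (Or.inl ⟨j, rfl⟩))
  have hsum : ∀ (q : L[X]) (e : ℕ → K₁),
      (∀ i, S'.T (algebraMap L M (q.coeff i)) (algebraMap K₁ K (e i))) →
      S'.T (ψ j (Polynomial.aeval (θ j) q))
        (∑ i ∈ Finset.range (q.natDegree + 1), algebraMap K₁ K (e i) * t ^ i) := by
    intro q e he
    have h2 : ψ j (Polynomial.aeval (θ j) q) = ∑ i ∈ Finset.range (q.natDegree + 1),
        algebraMap L M (q.coeff i) * (ψ j (θ j)) ^ i := by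
      rw [Polynomial.aeval_eq_sum_range, map_sum]
      refine Finset.sum_congr rfl fun i _ => ?_
      rw [Algebra.smul_def, map_mul, map_pow, AlgHom.commutes]
    rw [h2]
    exact S'.sum _ fun i _ => S'.mul (he i) (S'.pow ht i)
  have hmin : ∀ c ∈ (minpoly L (θ j)).coeffs, c ∈ 𝒞 := by
    intro c hc
    rw [h𝒞]
    exact Set.mem_iUnion.2 ⟨j, Or.inl hc⟩
  choose e he using hval (minpoly L (θ j)) hmin
  set d := (minpoly L (θ j)).natDegree with hd
  have hlead : e d = 1 := by
    have h1 := he d
    have h2 : (minpoly L (θ j)).coeff d = 1 := (minpoly.monic (hθi j)).coeff_natDegree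
    rw [h2, map_one] at h1
    have h3 := S'.ext h1 S'.one
    exact (algebraMap K₁ K).injective (by rw [h3, map_one])
  have hzero : ∑ i ∈ Finset.range (d + 1), algebraMap K₁ K (e i) * t ^ i = 0 := by
    refine S'.eq_zero (hsum (minpoly L (θ j)) e he) ?_
    rw [minpoly.aeval, map_zero]
  let q : K₁[X] := ∑ i ∈ Finset.range (d + 1), Polynomial.C (e i) * Polynomial.X ^ i
  have hqc : ∀ i, i ∈ Finset.range (d + 1) → q.coeff i = e i := by
    intro i hi
    simp only [q, Polynomial.finsetSum_coeff, Polynomial.coeff_C_mul, Polynomial.coeff_X_pow,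
      mul_ite, mul_one, mul_zero, Finset.sum_ite_eq, hi, if_true]
  have hqd : q.natDegree ≤ d := by
    refine Polynomial.natDegree_sum_le_of_forall_le _ _ fun i hi => ?_
    refine (Polynomial.natDegree_C_mul_X_pow_le _ _).trans ?_
    have := Finset.mem_range.1 hi
    omega
  have hq0 : q ≠ 0 := by
    intro h0
    have h1 := hqc d (Finset.mem_range.2 (Nat.lt_succ_self d))
    rw [h0, Polynomial.coeff_zero, hlead] at h1
    exact zero_ne_one h1
  have hqt : Polynomial.aeval t q = 0 := by
    rw [← hzero]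
    simp only [q, map_sum, map_mul, Polynomial.aeval_C, map_pow, Polynomial.aeval_X]
  have hti : IsIntegral K₁ t := (isAlgebraic_iff_isIntegral.1 ⟨q, hq0, hqt⟩)
  refine ⟨t, hti, ?_, ?_⟩
  · refine (Polynomial.natDegree_le_natDegree
      (minpoly.degree_le_of_ne_zero K₁ t hq0 hqt)).trans ?_
    refine hqd.trans (le_of_eq ?_)
    rw [hd, ← IntermediateField.adjoin.finrank (hθi j), hθ j, IntermediateField.finrank_top']
  · intro ϑ hϑ
    choose e' he' using hval (p j ϑ) (fun c hc => by
      rw [h𝒞]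
      exact Set.mem_iUnion.2 ⟨j, Or.inr (Set.mem_biUnion hϑ hc)⟩)
    refine ⟨∑ i ∈ Finset.range ((p j ϑ).natDegree + 1), algebraMap K₁ K (e' i) * t ^ i, ?_, ?_⟩
    · refine sum_mem fun i _ => mul_mem ?_ (pow_mem (mem_adjoin_simple_self K₁ t) i)
      exact IntermediateField.algebraMap_mem _ _
    · have h1 := hsum (p j ϑ) e' he'
      rw [hp] at h1
      exact h1

/-- elements which are algebraic over the field generated by `v` are roots, at points, of
polynomials which depend only on the values of `v` -/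
theorem alg_pts {K M : Type} [Field K] [Field M] [Algebra K M] {τ σ : Type} [Finite σ]
    (v : τ → M) (g : σ → M) (hg : ∀ m, g m ∈ aclo K (Set.range v)) :
    ∃ H : MvPolynomial τ K, MvPolynomial.aeval v H ≠ 0 ∧ ∃ Q : σ → (τ → K) → K[X],
      (∀ m v', Q m v' ≠ 0) ∧ ∀ S : Sp K M K, (∃ t, S.T (MvPolynomial.aeval v H)⁻¹ t) →
        ∀ v' : τ → K, (∀ i, S.T (v i) (v' i)) → ∀ m z, S.T (g m) z →
          (Q m v').eval z = 0 := by
  classical
  let K' : IntermediateField K M := adjoin K (Set.range v)
  let w : τ → K' := fun i => ⟨v i, subset_adjoin K _ ⟨i, rfl⟩⟩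
  have hw : ∀ i, algebraMap K' M (w i) = v i := fun i => rfl
  have hwtop : adjoin K (Set.range w) = ⊤ := by
    apply IntermediateField.map_injective K'.val
    rw [← AlgHom.fieldRange_eq_map, IntermediateField.fieldRange_val,
      IntermediateField.adjoin_map]
    congr 1
    rw [← Set.range_comp]
    rfl
  have hvalw : ∀ G : MvPolynomial τ K, algebraMap K' M (MvPolynomial.aeval w G) =
      MvPolynomial.aeval v G := by
    intro G
    have h1 : (IsScalarTower.toAlgHom K K' M).comp (MvPolynomial.aeval w) =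
        MvPolynomial.aeval v := by
      apply MvPolynomial.algHom_ext
      intro i
      simp [hw]
    rw [← h1]
    rfl
  have hint : ∀ m, IsIntegral K' (g m) := fun m => (mem_aclo.1 (hg m)).isIntegral
  have hfin : (⋃ m, (↑(minpoly K' (g m)).coeffs : Set K')).Finite :=
    Set.finite_iUnion fun m => Finset.finite_toSet _
  obtain ⟨H, hH, hG⟩ := exists_den hwtop hfin
  choose! G hG' using hG
  have hH' : MvPolynomial.aeval v H ≠ 0 := by
    rw [← hvalw]
    intro h0
    exact hH ((map_eq_zero _).1 h0)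
  refine ⟨H, hH', fun m v' => Polynomial.X ^ (minpoly K' (g m)).natDegree +
    ∑ i ∈ Finset.range (minpoly K' (g m)).natDegree,
      Polynomial.monomial i (if (minpoly K' (g m)).coeff i = 0 then 0 else
        MvPolynomial.eval v' (G ((minpoly K' (g m)).coeff i)) / MvPolynomial.eval v' H),
    fun m v' h0 => ?_, fun S hS v' hv' m z hz => ?_⟩
  · have h1 := congrArg (fun p => p.coeff (minpoly K' (g m)).natDegree) h0
    simp only [Polynomial.coeff_add, Polynomial.coeff_X_pow, if_true, Polynomial.finsetSum_coeff,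
      Polynomial.coeff_monomial, Polynomial.coeff_zero] at h1
    rw [Finset.sum_eq_zero, add_zero] at h1
    · exact one_ne_zero h1
    · intro i hi
      rw [if_neg]
      have := Finset.mem_range.1 hi
      omega
  · have hval : ∀ P : MvPolynomial τ K, S.T (MvPolynomial.aeval v P)
        (MvPolynomial.eval v' P) := by
      intro P
      induction P using MvPolynomial.induction_on with
      | C c =>
        rw [MvPolynomial.aeval_C, MvPolynomial.eval_C]
        exact S.const c
      | add p q hp hq =>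
        rw [map_add, map_add]
        exact S.add hp hq
      | mul_X p i hp =>
        rw [map_mul, map_mul, MvPolynomial.aeval_X, MvPolynomial.eval_X]
        exact S.mul hp (hv' i)
    have hco : ∀ i, S.T (algebraMap K' M ((minpoly K' (g m)).coeff i))
        (if (minpoly K' (g m)).coeff i = 0 then 0 else
          MvPolynomial.eval v' (G ((minpoly K' (g m)).coeff i)) / MvPolynomial.eval v' H) := by
      intro i
      split_ifs with h0
      · rw [h0, map_zero]
        exact S.zero
      · have h1 := hG' _ (Set.mem_iUnion.2 ⟨m, Polynomial.coeff_mem_coeffs h0⟩)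
        have h2 : algebraMap K' M ((minpoly K' (g m)).coeff i) =
            MvPolynomial.aeval v (G ((minpoly K' (g m)).coeff i)) *
              (MvPolynomial.aeval v H)⁻¹ := by
          rw [← hvalw, ← hvalw, ← h1, map_mul]
          have h2 : algebraMap K' M (MvPolynomial.aeval w H) ≠ 0 := by
            rw [hvalw]
            exact hH'
          field_simp
        rw [h2, div_eq_mul_inv]
        exact S.mul (hval _) (S.inv (hval H) hS hH')
    have h1 := S.add (S.pow hz (minpoly K' (g m)).natDegree)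
      (S.sum (Finset.range (minpoly K' (g m)).natDegree)
        (fun i _ => S.mul (hco i) (S.pow hz i)))
    have h2 : g m ^ (minpoly K' (g m)).natDegree +
        ∑ i ∈ Finset.range (minpoly K' (g m)).natDegree,
          algebraMap K' M ((minpoly K' (g m)).coeff i) * g m ^ i = 0 := by
      have h3 := minpoly.aeval K' (g m)
      rw [Polynomial.aeval_eq_sum_range, Finset.sum_range_succ,
        (minpoly.monic (hint m)).coeff_natDegree, one_smul, add_comm] at h3
      rw [← h3]
      congr 1
    have h3 := S.eq_zero h1 h2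
    rw [Polynomial.eval_add, Polynomial.eval_pow, Polynomial.eval_X, Polynomial.eval_finsetSum]
    refine Eq.trans ?_ h3
    congr 1
    refine Finset.sum_congr rfl fun i _ => ?_
    rw [Polynomial.eval_monomial]

end Pool.Agent.N111.GI
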