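import Pool.Agent.Y692.NT.Tr
import Pool.Agent.TH466.QG.Low
import Pool.Agent.N111.FT.Loc

/-!
Traces of canonical forms and of logarithmic canonical forms.
-/

set_option autoImplicit false
set_option linter.unusedSectionVars false
set_option linter.overlappingInstances false

open FF Polynomial Pool.Agent.W602.GT Pool.Agent.W603.LV Pool.Agent.W619.PQ Pool.Agent.Y172

namespace Pool.Agent.N111.GI

section

variable {k K L : Type} [Field k] [CharZero k] [IsAlgClosed k] [Field K] [Field L] [Algebra k K] [Algebra k L]
  [Algebra K L] [IsScalarTower k K L] [FiniteDimensional K L] [Algebra.EssFiniteType k K]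
  [Algebra.EssFiniteType k L] {n : ℕ}

/-- the canonical form with the coefficient `t` in the coordinates `y` -/
noncomputable def trForm (y : Fin n → K) (t : K) (D : Fin n → Derivation k K K) : K :=
  (Matrix.of fun i j => D i (y j) : Matrix (Fin n) (Fin n) K).det * t

theorem trForm_pluri (y : Fin n → K) (t : K) : IsPluri 1 (trForm (k := k) y t) := by
  intro A D
  have e1 : (Matrix.of fun a b => (∑ j, A a j • D j) (y b)) =
      A * Matrix.of fun a b => D a (y b) := by
    ext a b
    rw [Matrix.of_apply, Matrix.mul_apply, sum_smul_apply]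
    rfl
  change (Matrix.of fun a b => (∑ j, A a j • D j) (y b)).det * _ = _
  rw [e1, Matrix.det_mul, pow_one, mul_assoc]
  rfl

/-- the trace in the coordinates of a place -/
theorem trForm_val (hn : Algebra.trdeg k K = n) {y : Fin n → K} {E : Fin n → Derivation k K K}
    (hy : IsTranscendenceBasis k y) (hE : ∀ i j, E i (y j) = if i = j then 1 else 0)
    {E' : Fin n → Derivation k L L}
    (hE' : ∀ i f, E' i (algebraMap K L f) = algebraMap K L (E i f))
    {yP : Fin n → K} {EP : Fin n → Derivation k K K} (hyP : IsTranscendenceBasis k yP)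
    (hEP : ∀ i j, EP i (yP j) = if i = j then 1 else 0) {EP' : Fin n → Derivation k L L}
    (hEP' : ∀ i f, EP' i (algebraMap K L f) = algebraMap K L (EP i f))
    {W : (Fin n → Derivation k L L) → L} (hW : IsPluri 1 W) (G : Fin n → Derivation k K K) :
    trForm y (Algebra.trace K L (W E')) G =
      (Matrix.of fun i j => G i (yP j) : Matrix (Fin n) (Fin n) K).det *
        Algebra.trace K L (W EP') := by
  classical
  obtain ⟨B, hB⟩ : ∃ B : Matrix (Fin n) (Fin n) K, B = Matrix.of fun i j => E i (yP j) :=
    ⟨_, rfl⟩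
  have hC : (Matrix.of fun i j => G i (yP j) : Matrix (Fin n) (Fin n) K).det =
      (Matrix.of fun i j => G i (y j) : Matrix (Fin n) (Fin n) K).det * B.det := by
    rw [← Matrix.det_mul]
    congr 1
    ext i j
    rw [Matrix.of_apply, Matrix.mul_apply, hB]
    have h1 := Pool.Agent.W73.PG.PULL.expand y hy E hE (G i)
    conv_lhs => rw [← h1]
    rw [sum_smul_apply]
    rfl
  have hWB : W E' = algebraMap K L B.det * W EP' := by
    have h1 := pluri_coord (hyP.algebraMap_comp (A := L)) (lift_dual hEP hEP') hW E'
    rw [h1, pow_one]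
    congr 1
    rw [hB, RingHom.map_det]
    congr 1
    ext i j
    rw [Matrix.of_apply, RingHom.mapMatrix_apply, Matrix.map_apply, Matrix.of_apply]
    exact hE' i (yP j)
  rw [trForm, hC, hWB, ← Algebra.smul_def, map_smul, smul_eq_mul]
  ring

/-- traces of regular canonical forms are regular -/
theorem trForm_regAt (hn : Algebra.trdeg k K = n) {y : Fin n → K} {E : Fin n → Derivation k K K}
    (hy : IsTranscendenceBasis k y) (hE : ∀ i j, E i (y j) = if i = j then 1 else 0)
    {E' : Fin n → Derivation k L L}
    (hE' : ∀ i f, E' i (algebraMap K L f) = algebraMap K L (E i f))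
    (W : (Fin n → Derivation k L L) → L) (hW : IsPluri 1 W) (P : Place k K)
    (hP : Divisorial n P) (hreg : ∀ (Q : Place k L) (e : ℕ), Over Q P e → RegAt Q W) :
    RegAt P (trForm y (Algebra.trace K L (W E'))) := by
  classical
  have hnL : Algebra.trdeg k L = n := trdeg_up (K := K) hn
  intro G hG
  obtain ⟨yP, EP, i0, hl⟩ := exists_loc hn hP
  choose EP' hEP' using fun i => exists_lift (L := L) hn (EP i)
  rw [trForm_val hn hy hE hE' hl.bas hl.dual hEP' hW G]
  refine P.reg_mul ?_ ?_
  · have h9 : Ge P 0 (Matrix.of fun i j => G i (yP j) : Matrix (Fin n) (Fin n) K).det :=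
      Pool.Agent.W603.LV.ge_det P _ _ (fun _ _ => 0) (fun a b => hG a _ (hl.reg b))
        fun σ => by simp
    exact h9
  · refine Pool.Agent.Y692.NT.trace_reg P (W EP') fun Q e hQ => ?_
    have hQd : Divisorial n Q := divisorial_up hQ hP
    have h1 := down_ge hnL hQ hQd hl hEP' hW (c := 0) (fun G' hG' => by
      rcases hreg Q e hQ G' hG' with h | h
      · exact Or.inl h
      · exact Or.inr (by exact_mod_cast h))
    rcases h1 with h1 | h1
    · exact Or.inl h1
    · right
      have h2 : ((1 - e : ℤ) : ℝ) ≤ (Q.ord (W EP') : ℝ) := by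
        push_cast
        push_cast at h1
        linarith
      exact_mod_cast h2

/-- traces of logarithmic canonical forms are logarithmic -/
theorem trForm_logAt (hn : Algebra.trdeg k K = n) {y : Fin n → K} {E : Fin n → Derivation k K K}
    (hy : IsTranscendenceBasis k y) (hE : ∀ i j, E i (y j) = if i = j then 1 else 0)
    {E' : Fin n → Derivation k L L}
    (hE' : ∀ i f, E' i (algebraMap K L f) = algebraMap K L (E i f))
    (W : (Fin n → Derivation k L L) → L) (hW : IsPluri 1 W) (P : Place k K)
    (hP : Divisorial n P) (hlog : ∀ (Q : Place k L) (e : ℕ), Over Q P e → LogAt Q W) :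
    LogAt P (trForm y (Algebra.trace K L (W E'))) := by
  classical
  intro G hG
  obtain ⟨yP, EP, i0, hl⟩ := exists_loc hn hP
  choose EP' hEP' using fun i => exists_lift (L := L) hn (EP i)
  rw [trForm_val hn hy hE hE' hl.bas hl.dual hEP' hW G]
  -- the determinant
  have h9 : Ge P 1 (Matrix.of fun i j => G i (yP j) : Matrix (Fin n) (Fin n) K).det := by
    refine Pool.Agent.W603.LV.ge_det P _ _ (fun _ b => if b = i0 then 1 else 0)
      (fun a b => ?_) fun σ => by simp
    rw [Matrix.of_apply]
    by_cases hb : b = i0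
    · rw [if_pos hb, hb]
      have h1 := hG a (yP i0)
      have h2 : Ge P 0 (G a (yP i0) / yP i0) := h1
      have h3 : Ge P 1 (yP i0) := Or.inr (by rw [hl.unif])
      have h4 := h2.mul h3
      rwa [div_mul_cancel₀ _ hl.ne, zero_add] at h4
    · rw [if_neg hb]
      exact Pool.Agent.TH466.QG.derReg_of_log (hG a) _ (hl.reg b)
  -- the trace
  have h10 : Ge P 0 (yP i0 • Algebra.trace K L (W EP')) := by
    rw [← map_smul]
    refine Pool.Agent.Y692.NT.trace_reg P _ fun Q e hQ => ?_
    have h1 := hlog Q e hQ (fun i => algebraMap K L (lc yP i0 i) • EP' i) fun i =>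
      lift_log hQ (hl.log i) fun f => by
        change algebraMap K L (lc yP i0 i) * EP' i (algebraMap K L f) =
          algebraMap K L (lc yP i0 i * EP i f)
        rw [hEP', map_mul]
    rw [pluri_diag hW (fun i => algebraMap K L (lc yP i0 i)) EP', ← map_prod, prod_lc,
      pow_one] at h1
    rw [Algebra.smul_def]
    have h2 : Ge Q 0 (algebraMap K L (yP i0) * W EP') := h1
    refine h2.mono ?_
    have := hQ.1
    omega
  obtain ⟨T, hT⟩ : ∃ T, T = Algebra.trace K L (W EP') := ⟨_, rfl⟩
  rw [← hT] at h10 ⊢
  rw [smul_eq_mul] at h10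
  have h11 := h9.mul h10
  rcases h11 with h11 | h11
  · rcases mul_eq_zero.1 h11 with h | h
    · rw [h, zero_mul]
      exact P.reg_zero
    · rcases mul_eq_zero.1 h with h | h
      · exact absurd h hl.ne
      · rw [h, mul_zero]
        exact P.reg_zero
  · by_cases hd : (Matrix.of fun i j => G i (yP j) : Matrix (Fin n) (Fin n) K).det = 0
    · rw [hd, zero_mul]
      exact P.reg_zero
    by_cases hT0 : T = 0
    · rw [hT0, mul_zero]
      exact P.reg_zero
    right
    rw [P.ord_mul hd (mul_ne_zero hl.ne hT0), P.ord_mul hl.ne hT0, hl.unif] at h11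
    rw [P.ord_mul hd hT0]
    omega

/-- `ω` has at most a logarithmic pole at `P`, and no pole if `P` is not in the boundary. -/
def SecAt {F : Type} [Field F] [Algebra k F] (Bd : Place k F → Prop) (P : Place k F)
    (ω : (Fin n → Derivation k F F) → F) : Prop :=
  LogAt P ω ∧ (¬ Bd P → RegAt P ω)

theorem trForm_sec (hn : Algebra.trdeg k K = n) {y : Fin n → K} {E : Fin n → Derivation k K K}
    (hy : IsTranscendenceBasis k y) (hE : ∀ i j, E i (y j) = if i = j then 1 else 0)
    {E' : Fin n → Derivation k L L}
    (hE' : ∀ i f, E' i (algebraMap K L f) = algebraMap K L (E i f))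
    (W : (Fin n → Derivation k L L) → L) (hW : IsPluri 1 W) {BK : Place k K → Prop}
    {BL : Place k L → Prop} (hB : ∀ (P : Place k K) (Q : Place k L) (e : ℕ), Over Q P e →
      BL Q → BK P)
    (hsec : ∀ Q : Place k L, Divisorial n Q → SecAt BL Q W) (P : Place k K)
    (hP : Divisorial n P) : SecAt BK P (trForm y (Algebra.trace K L (W E'))) := by
  refine ⟨trForm_logAt hn hy hE hE' W hW P hP fun Q e hQ =>
    (hsec Q (divisorial_up hQ hP)).1, fun hBP => trForm_regAt hn hy hE hE' W hW P hP
      fun Q e hQ => (hsec Q (divisorial_up hQ hP)).2 fun h => hBP (hB P Q e hQ h)⟩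

end

end Pool.Agent.N111.GI
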